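import Pool.Agent.H52.FQ.Defs

/-!
# Classification of the rotation numbers
-/

namespace Pool.Agent.H52.FQ

open Finset

section
variable {K : Type*} [Field K]

/-- The reproducing kernel of the form `∑ x y / m` on functions on four points. -/
theorem kernel (U V w : Fin 4 → K) (ρ : K) (h2 : (2 : K) ≠ 0)
    (h1 : ∑ i, w i = 0) (hU : ∑ i, U i * w i = 0) (hV : ∑ i, V i * w i = 0)
    (hUU : ∑ i, U i ^ 2 * w i = 0) (hVV : ∑ i, V i ^ 2 * w i = 0)
    (hUV : ∑ i, U i * V i * w i = 4)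
    (hUUV : ∑ i, U i ^ 2 * V i * w i = 0) (hUVV : ∑ i, U i * V i ^ 2 * w i = 0)
    (hρ : ∑ i, U i ^ 2 * V i ^ 2 * w i = 16 * ρ) (i j : Fin 4) :
    ((U i + U j) * (V i + V j) - 4 * ρ) * w i = if i = j then 4 else 0 := by
  have h4 : (4 : K) ≠ 0 := by
    have : (4 : K) = 2 * 2 := by norm_num
    rw [this]
    exact mul_ne_zero h2 h2
  let P : Matrix (Fin 4) (Fin 4) K := Matrix.of ![fun _ => 1, U, V, fun i => U i * V i]
  let Q : Matrix (Fin 4) (Fin 4) K := Matrix.of fun i =>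
    ![(U i * V i - 4 * ρ) * w i * 4⁻¹, V i * w i * 4⁻¹, U i * w i * 4⁻¹, w i * 4⁻¹]
  have h44 : (4 : K) * 4⁻¹ = 1 := mul_inv_cancel₀ h4
  simp only [Fin.sum_univ_four] at h1 hU hV hUU hVV hUV hUUV hUVV hρ
  have hPQ : P * Q = 1 := by
    ext k l
    rw [Matrix.mul_apply, Fin.sum_univ_four]
    fin_cases k <;> fin_cases l <;> simp [P, Q]
    · linear_combination 4⁻¹ * hUV - 4 * ρ * 4⁻¹ * h1 + h44
    · linear_combination 4⁻¹ * hV
    · linear_combination 4⁻¹ * hU
    · linear_combination 4⁻¹ * h1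
    · linear_combination 4⁻¹ * hUUV - 4 * ρ * 4⁻¹ * hU
    · linear_combination 4⁻¹ * hUV + h44
    · linear_combination 4⁻¹ * hUU
    · linear_combination 4⁻¹ * hU
    · linear_combination 4⁻¹ * hUVV - 4 * ρ * 4⁻¹ * hV
    · linear_combination 4⁻¹ * hVV
    · linear_combination 4⁻¹ * hUV + h44
    · linear_combination 4⁻¹ * hV
    · linear_combination 4⁻¹ * hρ - 4 * ρ * 4⁻¹ * hUV
    · linear_combination 4⁻¹ * hUVV
    · linear_combination 4⁻¹ * hUUV
    · linear_combination 4⁻¹ * hUV + h44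
  have hQP : Q * P = 1 := mul_eq_one_comm.mp hPQ
  have := congrFun (congrFun hQP i) j
  rw [Matrix.mul_apply, Fin.sum_univ_four, Matrix.one_apply] at this
  simp [P, Q] at this
  have e1 : ((U i + U j) * (V i + V j) - 4 * ρ) * w i =
      4 * ((U i * V i - 4 * ρ) * w i * 4⁻¹ + V i * w i * 4⁻¹ * U j + U i * w i * 4⁻¹ * V j +
      w i * 4⁻¹ * (U j * V j)) := by
    linear_combination (-((U i + U j) * (V i + V j) - 4 * ρ) * w i) * h44
  rw [e1, this]
  split_ifs <;> simp

/-- The fourth power sum vanishes. -/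
theorem quartic (U V m w : Fin 4 → K) (ρ : K) (h2 : (2 : K) ≠ 0) (hmw : ∀ i, m i * w i = 1)
    (hR : ∀ i j, ((U i + U j) * (V i + V j) - 4 * ρ) * w i = if i = j then 4 else 0)
    (hUU : ∑ i, U i ^ 2 * w i = 0) (hUUV : ∑ i, U i ^ 2 * V i * w i = 0) :
    ∑ i, U i ^ 4 * w i = 0 := by
  have h4 : (4 : K) ≠ 0 := by
    have : (4 : K) = 2 * 2 := by norm_num
    rw [this]
    exact mul_ne_zero h2 h2
  have hR' : ∀ i j, (U i + U j) * (V i + V j) - 4 * ρ = if i = j then 4 * m i else 0 := by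
    intro i j
    have h := hR i j
    have e : (U i + U j) * (V i + V j) - 4 * ρ =
        (((U i + U j) * (V i + V j) - 4 * ρ) * w i) * m i := by
      linear_combination (-((U i + U j) * (V i + V j) - 4 * ρ)) * hmw i
    rw [e, h]
    split_ifs <;> ring
  have key : ∀ i, 4 * U i ^ 2 = V i * ∑ j, U j ^ 3 * w j + ∑ j, U j ^ 3 * V j * w j := by
    intro i
    have e : ∑ j, ((U i + U j) * (V i + V j) - 4 * ρ) * (U j ^ 2 * w j) = 4 * U i ^ 2 := by
      have : ∀ j, ((U i + U j) * (V i + V j) - 4 * ρ) * (U j ^ 2 * w j) =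
          if i = j then 4 * U i ^ 2 else 0 := by
        intro j
        rw [hR' i j]
        split_ifs with h
        · subst h
          linear_combination 4 * U i ^ 2 * hmw i
        · ring
      rw [Finset.sum_congr rfl fun j _ => this j]
      simp
    rw [← e]
    simp only [Fin.sum_univ_four] at hUU hUUV ⊢
    linear_combination (U i * V i - 4 * ρ) * hUU + U i * hUUV
  have : 4 * ∑ i, U i ^ 4 * w i = 0 := by
    have e : ∀ i, 4 * (U i ^ 4 * w i) = (∑ j, U j ^ 3 * w j) * (U i ^ 2 * V i * w i) +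
        (∑ j, U j ^ 3 * V j * w j) * (U i ^ 2 * w i) := by
      intro i
      linear_combination (U i ^ 2 * w i) * key i
    rw [Finset.mul_sum, Finset.sum_congr rfl fun i _ => e i, Finset.sum_add_distrib,
      ← Finset.mul_sum, ← Finset.mul_sum, hUUV, hUU]
    ring
  exact (mul_eq_zero.mp this).resolve_left h4

/-- **Classification** of the rotation numbers: for two different fixed points `U i = - U j` or
`V i = - V j`, where `U = 2 e - α`, `V = 2 f - γ`, and `{a i, b i} = {U i, V i}`. -/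
theorem classify (a b e f : Fin 4 → K) (k : K) (h2 : (2 : K) ≠ 0) (h3 : (3 : K) ≠ 0)
    (ha : ∀ i, a i ≠ 0) (hb : ∀ i, b i ≠ 0)
    (hcan : ∀ i, a i + b i = 2 * (e i + f i) + k)
    (i1 : ∑ i, (a i * b i)⁻¹ = 0)
    (iE : ∑ i, e i * (a i * b i)⁻¹ = 0) (iF : ∑ i, f i * (a i * b i)⁻¹ = 0)
    (iEE : ∑ i, e i ^ 2 * (a i * b i)⁻¹ = 0) (iFF : ∑ i, f i ^ 2 * (a i * b i)⁻¹ = 0)
    (iEF : ∑ i, e i * f i * (a i * b i)⁻¹ = 1)
    (t3 : ∑ i, (a i + b i) = 0)
    (t4 : ∑ i, (7 * (a i * b i) ^ 2 - (a i ^ 2 + b i ^ 2) ^ 2) * (a i * b i)⁻¹ = 0) :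
    ∃ α γ : K, (∀ i j, i ≠ j → 2 * e i - α + (2 * e j - α) = 0 ∨
        2 * f i - γ + (2 * f j - γ) = 0) ∧
      ∀ i, (a i = 2 * e i - α ∧ b i = 2 * f i - γ) ∨
        (a i = 2 * f i - γ ∧ b i = 2 * e i - α) := by
  have h4 : (4 : K) ≠ 0 := by
    have : (4 : K) = 2 * 2 := by norm_num
    rw [this]
    exact mul_ne_zero h2 h2
  have h24 : (24 : K) ≠ 0 := by
    have : (24 : K) = 2 * 2 * 2 * 3 := by norm_num
    rw [this]
    exact mul_ne_zero (mul_ne_zero (mul_ne_zero h2 h2) h2) h3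
  have h16 : (16 : K) ≠ 0 := by
    have : (16 : K) = 2 * 2 * (2 * 2) := by norm_num
    rw [this]
    exact mul_ne_zero (mul_ne_zero h2 h2) (mul_ne_zero h2 h2)
  set m : Fin 4 → K := fun i => a i * b i with hm
  set w : Fin 4 → K := fun i => (a i * b i)⁻¹ with hw
  have hmw : ∀ i, m i * w i = 1 := fun i => mul_inv_cancel₀ (mul_ne_zero (ha i) (hb i))
  obtain ⟨α, hα⟩ : ∃ α, ∑ i, e i ^ 2 * f i * w i = α := ⟨_, rfl⟩
  obtain ⟨γ, hγ⟩ : ∃ γ, ∑ i, e i * f i ^ 2 * w i = γ := ⟨_, rfl⟩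
  obtain ⟨U, hUdef⟩ : ∃ U : Fin 4 → K, ∀ i, U i = 2 * e i - α := ⟨fun i => 2 * e i - α, fun _ => rfl⟩
  obtain ⟨V, hVdef⟩ : ∃ V : Fin 4 → K, ∀ i, V i = 2 * f i - γ := ⟨fun i => 2 * f i - γ, fun _ => rfl⟩
  have j1 : ∑ i, w i = 0 := i1
  have jE : ∑ i, e i * w i = 0 := iE
  have jF : ∑ i, f i * w i = 0 := iF
  have jEE : ∑ i, e i ^ 2 * w i = 0 := iEE
  have jFF : ∑ i, f i ^ 2 * w i = 0 := iFF
  have jEF : ∑ i, e i * f i * w i = 1 := iEF
  clear_value m w
  simp only [Fin.sum_univ_four] at j1 jE jF jEE jFF jEF hα hγ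
  have s1 : ∑ i, w i = 0 := by simp only [Fin.sum_univ_four]; linear_combination j1
  have sU : ∑ i, U i * w i = 0 := by
    simp only [Fin.sum_univ_four, hUdef]; linear_combination 2 * jE - α * j1
  have sV : ∑ i, V i * w i = 0 := by
    simp only [Fin.sum_univ_four, hVdef]; linear_combination 2 * jF - γ * j1
  have sUU : ∑ i, U i ^ 2 * w i = 0 := by
    simp only [Fin.sum_univ_four, hUdef]
    linear_combination 4 * jEE - 4 * α * jE + α ^ 2 * j1
  have sVV : ∑ i, V i ^ 2 * w i = 0 := by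
    simp only [Fin.sum_univ_four, hVdef]
    linear_combination 4 * jFF - 4 * γ * jF + γ ^ 2 * j1
  have sUV : ∑ i, U i * V i * w i = 4 := by
    simp only [Fin.sum_univ_four, hUdef, hVdef]
    linear_combination 4 * jEF - 2 * γ * jE - 2 * α * jF + α * γ * j1
  have sUUV : ∑ i, U i ^ 2 * V i * w i = 0 := by
    simp only [Fin.sum_univ_four, hUdef, hVdef]
    linear_combination 8 * hα - 4 * γ * jEE - 8 * α * jEF + 4 * α * γ * jE + 2 * α ^ 2 * jF -
      α ^ 2 * γ * j1
  have sUVV : ∑ i, U i * V i ^ 2 * w i = 0 := by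
    simp only [Fin.sum_univ_four, hUdef, hVdef]
    linear_combination 8 * hγ - 4 * α * jFF - 8 * γ * jEF + 4 * α * γ * jF + 2 * γ ^ 2 * jE -
      γ ^ 2 * α * j1
  obtain ⟨ρ, hρ⟩ : ∃ ρ, ∑ i, U i ^ 2 * V i ^ 2 * w i = 16 * ρ :=
    ⟨(∑ i, U i ^ 2 * V i ^ 2 * w i) / 16, by field_simp⟩
  have hR := kernel U V w ρ h2 s1 sU sV sUU sVV sUV sUUV sUVV hρ
  have hmi : ∀ i, m i = U i * V i - ρ := by
    intro i
    have h := hR i i
    rw [if_pos rfl] at h
    have e : 4 * (U i * V i - ρ) = 4 * m i := by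
      linear_combination m i * h - (4 * (U i * V i - ρ)) * hmw i
    exact (mul_left_cancel₀ h4 e).symm
  have sumU : ∑ i, U i = 0 := by
    have e : ∀ i, U i = U i ^ 2 * V i * w i - ρ * (U i * w i) := by
      intro i
      have h := hmw i
      rw [hmi i] at h
      linear_combination (-U i) * h
    rw [Finset.sum_congr rfl fun i _ => e i, Finset.sum_sub_distrib, ← Finset.mul_sum, sUUV, sU]
    ring
  have sumV : ∑ i, V i = 0 := by
    have e : ∀ i, V i = U i * V i ^ 2 * w i - ρ * (V i * w i) := by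
      intro i
      have h := hmw i
      rw [hmi i] at h
      linear_combination (-V i) * h
    rw [Finset.sum_congr rfl fun i _ => e i, Finset.sum_sub_distrib, ← Finset.mul_sum, sUVV, sV]
    ring
  have sumUV : ∑ i, U i * V i = 12 * ρ := by
    have e : ∀ i, U i * V i = U i ^ 2 * V i ^ 2 * w i - ρ * (U i * V i * w i) := by
      intro i
      have h := hmw i
      rw [hmi i] at h
      linear_combination (-(U i * V i)) * h
    rw [Finset.sum_congr rfl fun i _ => e i, Finset.sum_sub_distrib, ← Finset.mul_sum, hρ, sUV]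
    ring
  -- the constant
  have hk : k + α + γ = 0 := by
    have : 4 * (k + α + γ) = 0 := by
      simp only [Fin.sum_univ_four, hUdef, hVdef, hcan] at sumU sumV t3
      linear_combination t3 - sumU - sumV
    exact (mul_eq_zero.mp this).resolve_left h4
  have hab : ∀ i, a i + b i = U i + V i := by
    intro i
    rw [hUdef, hVdef]
    linear_combination hcan i + hk
  have hU4 := quartic U V m w ρ h2 hmw hR sUU sUUV
  have hV4 := quartic V U m w ρ h2 hmw (fun i j => by rw [← hR i j]; ring) sVV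
    (by simpa only [mul_comm (V _ ^ 2)] using sUVV)
  have hmab : ∀ i, a i * b i = m i := fun i => (congrFun hm i).symm
  have hwab : ∀ i, (a i * b i)⁻¹ = w i := fun i => (congrFun hw i).symm
  have hρ0 : ρ = 0 := by
    have e : ∀ i, (7 * (a i * b i) ^ 2 - (a i ^ 2 + b i ^ 2) ^ 2) * (a i * b i)⁻¹ =
        7 * (U i * V i) - 7 * ρ - (U i ^ 4 * w i + V i ^ 4 * w i + 2 * (U i ^ 2 * V i ^ 2 * w i) +
          4 * ρ * (U i ^ 2 * w i) + 4 * ρ * (V i ^ 2 * w i) + 4 * ρ ^ 2 * w i) := by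
      intro i
      have h1 : a i ^ 2 + b i ^ 2 = U i ^ 2 + V i ^ 2 + 2 * ρ := by
        have h := hab i
        have h' := hmi i
        rw [← hmab i] at h'
        linear_combination (a i + b i + U i + V i) * h - 2 * h'
      rw [h1, hwab, hmab]
      have h' := hmw i
      have h'' := hmi i
      linear_combination 7 * m i * h' + 7 * h''
    rw [Finset.sum_congr rfl fun i _ => e i] at t4
    simp only [Finset.sum_sub_distrib, Finset.sum_add_distrib, ← Finset.mul_sum, hU4, hV4, hρ, sUU,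
      sVV, s1, sumUV, Finset.sum_const, Finset.card_univ, Fintype.card_fin] at t4
    have : 24 * ρ = 0 := by
      simp only [nsmul_eq_mul] at t4
      push_cast at t4
      linear_combination t4
    exact (mul_eq_zero.mp this).resolve_left h24
  refine ⟨α, γ, ?_, ?_⟩
  · intro i j hij
    have h := hR i j
    rw [if_neg hij, hρ0] at h
    have hwi : w i ≠ 0 := by
      intro h0
      have := hmw i
      rw [h0, mul_zero] at this
      exact zero_ne_one this
    have h' := (mul_eq_zero.mp h).resolve_right hwi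
    rw [mul_zero, sub_zero] at h'
    rw [← hUdef, ← hUdef, ← hVdef, ← hVdef]
    exact mul_eq_zero.mp h'
  · intro i
    have h := hab i
    have h' := hmi i
    rw [← hmab i, hρ0, sub_zero] at h'
    have : (a i - U i) * (a i - V i) = 0 := by
      linear_combination a i * h - h'
    rw [← hUdef, ← hVdef]
    rcases mul_eq_zero.mp this with h1 | h1
    · left
      exact ⟨by linear_combination h1, by linear_combination h - h1⟩
    · right
      exact ⟨by linear_combination h1, by linear_combination h - h1⟩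

/-- The four points form two rows. -/
def Rows (U V : Fin 4 → K) (σ : Equiv.Perm (Fin 4)) : Prop :=
  U (σ 1) = U (σ 0) ∧ U (σ 2) = -U (σ 0) ∧ U (σ 3) = -U (σ 0) ∧
    V (σ 1) = -V (σ 0) ∧ V (σ 3) = -V (σ 2)

theorem rows_aux (U V : Fin 4 → K) (h2 : (2 : K) ≠ 0) (hU : ∀ i, U i ≠ 0) (hV : ∀ i, V i ≠ 0)
    (h : ∀ i j, i ≠ j → U i + U j = 0 ∨ V i + V j = 0) (i0 l i j : Fin 4)
    (d1 : i0 ≠ l) (d4 : l ≠ i) (d5 : l ≠ j) (d6 : i ≠ j)
    (h1 : U i0 + U i = 0) (h1' : U i0 + U j = 0) :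
    U l = U i0 ∧ U i = -U i0 ∧ U j = -U i0 ∧ V l = -V i0 ∧ V j = -V i := by
  have e1 : U i = -U i0 := by linear_combination h1
  have e2 : U j = -U i0 := by linear_combination h1'
  have hz : ∀ x : K, x + x = 0 → x = 0 := by
    intro x hx
    have : 2 * x = 0 := by linear_combination hx
    exact (mul_eq_zero.mp this).resolve_left h2
  have e3 : V j = -V i := by
    rcases h i j d6 with h3 | h3
    · exfalso
      rw [e1, e2] at h3
      exact hU i0 (neg_eq_zero.mp (hz _ h3))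
    · linear_combination h3
  have e4 : V l = -V i0 := by
    rcases h i0 l d1 with h3 | h3
    · exfalso
      have e5 : U l = -U i0 := by linear_combination h3
      have e6 : V l + V i = 0 := by
        rcases h l i d4 with h4 | h4
        · exfalso
          rw [e5, e1] at h4
          exact hU i0 (neg_eq_zero.mp (hz _ h4))
        · exact h4
      have e7 : V l + V j = 0 := by
        rcases h l j d5 with h4 | h4
        · exfalso
          rw [e5, e2] at h4
          exact hU i0 (neg_eq_zero.mp (hz _ h4))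
        · exact h4
      apply hV l
      apply hz
      linear_combination e6 + e7 - e3
    · linear_combination h3
  refine ⟨?_, e1, e2, e4, e3⟩
  rcases h l i d4 with h3 | h3
  · rw [e1] at h3
    linear_combination h3
  · rcases h l j d5 with h4 | h4
    · rw [e2] at h4
      linear_combination h4
    · exfalso
      apply hV l
      apply hz
      linear_combination h3 + h4 - e3

theorem rows_exist (U V : Fin 4 → K) (h2 : (2 : K) ≠ 0) (hU : ∀ i, U i ≠ 0) (hV : ∀ i, V i ≠ 0)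
    (h : ∀ i j, i ≠ j → U i + U j = 0 ∨ V i + V j = 0) :
    ∃ σ : Equiv.Perm (Fin 4), Rows U V σ ∨ Rows V U σ := by
  have main : ∀ (U V : Fin 4 → K) (_ : ∀ i, U i ≠ 0) (_ : ∀ i, V i ≠ 0)
      (_ : ∀ i j, i ≠ j → U i + U j = 0 ∨ V i + V j = 0) (l i j : Fin 4),
      Function.Bijective ![0, l, i, j] → U 0 + U i = 0 → U 0 + U j = 0 →
      ∃ σ : Equiv.Perm (Fin 4), Rows U V σ := by
    intro U V hU hV h l i j hb h1 h1'
    have d : ∀ x y : Fin 4, x ≠ y → ![0, l, i, j] x ≠ ![0, l, i, j] y :=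
      fun x y hxy hh => hxy (hb.1 hh)
    have := rows_aux U V h2 hU hV h 0 l i j (d 0 1 (by decide)) (d 1 2 (by decide))
      (d 1 3 (by decide)) (d 2 3 (by decide)) h1 h1'
    refine ⟨Equiv.ofBijective _ hb, ?_⟩
    simpa [Rows] using this
  have h' : ∀ i j, i ≠ j → V i + V j = 0 ∨ U i + U j = 0 := fun i j hij => (h i j hij).symm
  rcases h 0 1 (by decide) with a1 | a1 <;> rcases h 0 2 (by decide) with a2 | a2 <;>
    rcases h 0 3 (by decide) with a3 | a3
  · obtain ⟨σ, hσ⟩ := main U V hU hV h 3 1 2 (by decide) a1 a2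
    exact ⟨σ, Or.inl hσ⟩
  · obtain ⟨σ, hσ⟩ := main U V hU hV h 3 1 2 (by decide) a1 a2
    exact ⟨σ, Or.inl hσ⟩
  · obtain ⟨σ, hσ⟩ := main U V hU hV h 2 1 3 (by decide) a1 a3
    exact ⟨σ, Or.inl hσ⟩
  · obtain ⟨σ, hσ⟩ := main V U hV hU h' 1 2 3 (by decide) a2 a3
    exact ⟨σ, Or.inr hσ⟩
  · obtain ⟨σ, hσ⟩ := main U V hU hV h 1 2 3 (by decide) a2 a3
    exact ⟨σ, Or.inl hσ⟩
  · obtain ⟨σ, hσ⟩ := main V U hV hU h' 2 1 3 (by decide) a1 a3
    exact ⟨σ, Or.inr hσ⟩
  · obtain ⟨σ, hσ⟩ := main V U hV hU h' 3 1 2 (by decide) a1 a2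
    exact ⟨σ, Or.inr hσ⟩
  · obtain ⟨σ, hσ⟩ := main V U hV hU h' 3 1 2 (by decide) a1 a2
    exact ⟨σ, Or.inr hσ⟩

end

end Pool.Agent.H52.FQ
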