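import Mathlib

/-!
The holomorphic Lefschetz formula modulo `p`.

For a primitive `p`-th root of unity `ζ` and an identity
`∑ i, ζ ^ n i / ((1 - ζ ^ a i) (1 - ζ ^ b i)) = M(ζ)`, `M` an integral polynomial, the denominators
`1 - ζ ^ a = -(ζ - 1)(1 + ζ + ... + ζ ^ (a - 1))` are cleared; the cyclotomic polynomial divides the
resulting polynomial, and it is `(X - 1) ^ (p - 1)` modulo `p`. With `X = exp y` modulo `y ^ 5` we get
the coefficients of the Todd series.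
-/

namespace Pool.Agent.H52.FQ.Lef

open Polynomial Finset

section Ring

variable {F : Type*} [Field F]

/-- the ring `F[y] / (y ^ 5)` -/
abbrev R5 (F : Type*) [Field F] : Type _ := F[X] ⧸ Ideal.span {(X : F[X]) ^ 5}

/-- the element `c0 + c1 y + c2 y ^ 2 + c3 y ^ 3 + c4 y ^ 4` -/
noncomputable def tr (c0 c1 c2 c3 c4 : F) : R5 F :=
  Ideal.Quotient.mk _ (C c0 + C c1 * X + C c2 * X ^ 2 + C c3 * X ^ 3 + C c4 * X ^ 4)

theorem mk_eq {P Q : F[X]} (h : (X : F[X]) ^ 5 ∣ P - Q) :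
    (Ideal.Quotient.mk (Ideal.span {(X : F[X]) ^ 5}) P) = Ideal.Quotient.mk _ Q := by
  rw [Ideal.Quotient.eq, Ideal.mem_span_singleton]
  exact h

theorem tr_mul (a0 a1 a2 a3 a4 b0 b1 b2 b3 b4 : F) :
    tr a0 a1 a2 a3 a4 * tr b0 b1 b2 b3 b4 =
      tr (a0 * b0) (a0 * b1 + a1 * b0) (a0 * b2 + a1 * b1 + a2 * b0)
        (a0 * b3 + a1 * b2 + a2 * b1 + a3 * b0)
        (a0 * b4 + a1 * b3 + a2 * b2 + a3 * b1 + a4 * b0) := by
  rw [tr, tr, tr, ← map_mul]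
  refine mk_eq ⟨C (a1 * b4 + a2 * b3 + a3 * b2 + a4 * b1) +
    C (a2 * b4 + a3 * b3 + a4 * b2) * X + C (a3 * b4 + a4 * b3) * X ^ 2 + C (a4 * b4) * X ^ 3, ?_⟩
  simp only [C_add, C_mul]
  ring

theorem tr_add (a0 a1 a2 a3 a4 b0 b1 b2 b3 b4 : F) :
    tr a0 a1 a2 a3 a4 + tr b0 b1 b2 b3 b4 =
      tr (a0 + b0) (a1 + b1) (a2 + b2) (a3 + b3) (a4 + b4) := by
  rw [tr, tr, tr, ← map_add]
  congr 1
  simp only [C_add]
  ring

theorem tr_sub (a0 a1 a2 a3 a4 b0 b1 b2 b3 b4 : F) :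
    tr a0 a1 a2 a3 a4 - tr b0 b1 b2 b3 b4 =
      tr (a0 - b0) (a1 - b1) (a2 - b2) (a3 - b3) (a4 - b4) := by
  rw [tr, tr, tr, ← map_sub]
  congr 1
  simp only [C_sub]
  ring

theorem tr_one : (1 : R5 F) = tr 1 0 0 0 0 := by
  simp [tr]

theorem tr_zero : (0 : R5 F) = tr 0 0 0 0 0 := by
  simp [tr]

theorem tr_sum {ι : Type*} (s : Finset ι) (c0 c1 c2 c3 c4 : ι → F) :
    ∑ i ∈ s, tr (c0 i) (c1 i) (c2 i) (c3 i) (c4 i) =
      tr (∑ i ∈ s, c0 i) (∑ i ∈ s, c1 i) (∑ i ∈ s, c2 i) (∑ i ∈ s, c3 i) (∑ i ∈ s, c4 i) := by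
  classical
  induction s using Finset.induction_on with
  | empty => simp [tr]
  | insert j s hj ih => simp only [sum_insert hj, ih, tr_add]

theorem tr_inj {c0 c1 c2 c3 c4 d0 d1 d2 d3 d4 : F}
    (h : tr c0 c1 c2 c3 c4 = tr d0 d1 d2 d3 d4) :
    c0 = d0 ∧ c1 = d1 ∧ c2 = d2 ∧ c3 = d3 ∧ c4 = d4 := by
  rw [tr, tr, Ideal.Quotient.eq, Ideal.mem_span_singleton, X_pow_dvd_iff] at h
  have h0 := h 0 (by norm_num)
  have h1 := h 1 (by norm_num)
  have h2 := h 2 (by norm_num)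
  have h3 := h 3 (by norm_num)
  have h4 := h 4 (by norm_num)
  simp [coeff_X, coeff_C, coeff_X_pow] at h0 h1 h2 h3 h4
  refine ⟨?_, ?_, ?_, ?_, ?_⟩
  · linear_combination h0
  · linear_combination h1
  · linear_combination h2
  · linear_combination h3
  · linear_combination h4

end Ring

section Exp

variable {F : Type*} [Field F]

/-- the exponential `exp (k y)` -/
noncomputable def ex (k : F) : R5 F := tr 1 k (k ^ 2 / 2) (k ^ 3 / 6) (k ^ 4 / 24)

/-- `(exp (k y) - 1) / (k y)` -/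
noncomputable def gg (k : F) : R5 F := tr 1 (k / 2) (k ^ 2 / 6) (k ^ 3 / 24) (k ^ 4 / 120)

/-- `k y / (exp (k y) - 1)` -/
noncomputable def hh (k : F) : R5 F := tr 1 (-(k / 2)) (k ^ 2 / 12) 0 (-(k ^ 4 / 720))

variable (h2 : (2 : F) ≠ 0) (h3 : (3 : F) ≠ 0) (h5 : (5 : F) ≠ 0)
include h2 h3

theorem ex_add (k l : F) : ex k * ex l = ex (k + l) := by
  have h6 : (6 : F) ≠ 0 := by
    have : (6 : F) = 2 * 3 := by norm_num
    rw [this]; exact mul_ne_zero h2 h3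
  have h24 : (24 : F) ≠ 0 := by
    have : (24 : F) = 2 * 2 * 2 * 3 := by norm_num
    rw [this]; exact mul_ne_zero (mul_ne_zero (mul_ne_zero h2 h2) h2) h3
  rw [ex, ex, ex, tr_mul]
  congr 1
  · ring
  · ring
  · field_simp
    ring
  · field_simp
    ring
  · field_simp
    ring

include h5

theorem gg_hh (k : F) : gg k * hh k = 1 := by
  have h6 : (6 : F) ≠ 0 := by
    have : (6 : F) = 2 * 3 := by norm_num
    rw [this]; exact mul_ne_zero h2 h3
  have h12 : (12 : F) ≠ 0 := by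
    have : (12 : F) = 2 * 2 * 3 := by norm_num
    rw [this]; exact mul_ne_zero (mul_ne_zero h2 h2) h3
  have h24 : (24 : F) ≠ 0 := by
    have : (24 : F) = 2 * 2 * 2 * 3 := by norm_num
    rw [this]; exact mul_ne_zero (mul_ne_zero (mul_ne_zero h2 h2) h2) h3
  have h120 : (120 : F) ≠ 0 := by
    have : (120 : F) = 24 * 5 := by norm_num
    rw [this]; exact mul_ne_zero h24 h5
  have h720 : (720 : F) ≠ 0 := by
    have : (720 : F) = 120 * 6 := by norm_num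
    rw [this]; exact mul_ne_zero h120 h6
  rw [gg, hh, tr_mul, tr_one]
  congr 1
  · ring
  · ring
  · field_simp
    ring
  · field_simp
    ring
  · field_simp
    ring

/-- `exp y * g y * k + ...`: the geometric sum `1 + E + ... + E ^ (k - 1)` -/
theorem geom_gg (k : ℕ) :
    (∑ i ∈ range k, ex (i : F)) * gg 1 = tr (k : F) ((k : F) ^ 2 / 2) ((k : F) ^ 3 / 6)
      ((k : F) ^ 4 / 24) ((k : F) ^ 5 / 120) := by
  have h6 : (6 : F) ≠ 0 := by
    have : (6 : F) = 2 * 3 := by norm_num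
    rw [this]; exact mul_ne_zero h2 h3
  have h24 : (24 : F) ≠ 0 := by
    have : (24 : F) = 2 * 2 * 2 * 3 := by norm_num
    rw [this]; exact mul_ne_zero (mul_ne_zero (mul_ne_zero h2 h2) h2) h3
  have h120 : (120 : F) ≠ 0 := by
    have : (120 : F) = 24 * 5 := by norm_num
    rw [this]; exact mul_ne_zero h24 h5
  induction k with
  | zero => simp [tr]
  | succ k ih =>
    rw [sum_range_succ, add_mul, ih, ex, gg, tr_mul, tr_add]
    push_cast
    congr 1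
    · ring
    · field_simp
      ring
    · field_simp
      ring
    · field_simp
      ring
    · field_simp
      ring

omit h5
theorem ex_pow (k : ℕ) : ex (1 : F) ^ k = ex (k : F) := by
  induction k with
  | zero => simp [ex, tr]
  | succ k ih => rw [pow_succ, ih, ex_add h2 h3, Nat.cast_succ]

end Exp

section Key

variable {p : ℕ} [Fact p.Prime]

/-- the geometric sum, as an integral polynomial -/
noncomputable def geo (k : ℕ) : ℤ[X] := ∑ i ∈ range k, X ^ i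

theorem aeval_geo {A : Type*} [CommRing A] [Algebra ℤ A] (z : A) (k : ℕ) :
    aeval z (geo k) = ∑ i ∈ range k, z ^ i := by
  simp [geo]

theorem nat_ne (hp : 7 ≤ p) {k : ℕ} (h0 : 0 < k) (hk : k < 7) : (k : ZMod p) ≠ 0 := by
  intro h
  rw [ZMod.natCast_eq_zero_iff] at h
  exact absurd (Nat.le_of_dvd h0 h) (by omega)

theorem two_ne (hp : 7 ≤ p) : (2 : ZMod p) ≠ 0 := by
  exact_mod_cast nat_ne hp (k := 2) (by norm_num) (by norm_num)

theorem three_ne (hp : 7 ≤ p) : (3 : ZMod p) ≠ 0 := by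
  exact_mod_cast nat_ne hp (k := 3) (by norm_num) (by norm_num)

theorem five_ne (hp : 7 ≤ p) : (5 : ZMod p) ≠ 0 := by
  exact_mod_cast nat_ne hp (k := 5) (by norm_num) (by norm_num)

/-- `exp y - 1 = y g(y)` -/
theorem ex_sub_one (hp : 7 ≤ p) : ex (1 : ZMod p) - 1 = tr 0 1 0 0 0 * gg 1 := by
  have h2 := two_ne hp
  have h3 := three_ne hp
  rw [ex, gg, tr_one, tr_sub, tr_mul]
  congr 1
  · ring
  · ring
  · ring
  · ring
  · ring

theorem y_pow_five : (tr 0 1 0 0 0 : R5 (ZMod p)) ^ 5 = 0 := by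
  have h : (tr 0 1 0 0 0 : R5 (ZMod p)) ^ 5 = tr 0 1 0 0 0 * tr 0 1 0 0 0 * tr 0 1 0 0 0 *
      tr 0 1 0 0 0 * tr 0 1 0 0 0 := by ring
  rw [h, tr_mul, tr_mul, tr_mul, tr_mul]
  simp [tr]

/-- a polynomial which vanishes at `ζ` vanishes at `exp y` modulo `p` and `y ^ 5` -/
theorem aeval_ex_eq_zero (hp : 7 ≤ p) {ζ : ℂ} (hζ : IsPrimitiveRoot ζ p) (T : ℤ[X])
    (h : aeval ζ T = 0) : aeval (ex (1 : ZMod p)) T = 0 := by
  have hp0 : 0 < p := by omega
  have hd : cyclotomic p ℤ ∣ T := by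
    rw [cyclotomic_eq_minpoly hζ hp0]
    exact minpoly.isIntegrallyClosed_dvd (hζ.isIntegral hp0) h
  obtain ⟨Q, rfl⟩ := hd
  rw [map_mul]
  have hz : aeval (ex (1 : ZMod p)) (cyclotomic p ℤ) = 0 := by
    rw [aeval_def, ← eval_map, map_cyclotomic]
    have h1 : cyclotomic p (R5 (ZMod p)) = (X - 1) ^ (p - 1) := by
      rw [← map_cyclotomic p (algebraMap (ZMod p) (R5 (ZMod p)))]
      have h2 := cyclotomic_mul_prime_eq_pow_of_not_dvd (ZMod p) (p := p) (n := 1)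
        (fun h => by have := Nat.le_of_dvd one_pos h; omega)
      rw [one_mul, cyclotomic_one] at h2
      rw [h2]
      simp
    rw [h1, eval_pow, eval_sub, eval_X, eval_one, ex_sub_one hp, mul_pow]
    obtain ⟨q, hq⟩ : ∃ q, p - 1 = 5 + q := ⟨p - 6, by omega⟩
    rw [hq, pow_add, y_pow_five, zero_mul, zero_mul]
  rw [hz, zero_mul]

/-- clearing denominators: if `u i * w i = 1`, then `∑ x i * ∏_{j ≠ i} u j = c * ∏ u j` is equivalent
to `∑ x i * w i = c` -/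
theorem clear {A ι : Type*} [CommRing A] [Fintype ι] [DecidableEq ι] (x u w : ι → A) (c : A)
    (h : ∀ i, u i * w i = 1) :
    (∑ i, x i * ∏ j ∈ univ.erase i, u j = c * ∏ j, u j) ↔ ∑ i, x i * w i = c := by
  have hU : (∏ j, u j) * ∏ j, w j = 1 := by
    rw [← prod_mul_distrib, prod_congr rfl fun i _ => h i, prod_const_one]
  have h1 : ∀ i, (∏ j ∈ univ.erase i, u j) * ∏ j, w j = w i := by
    intro i
    rw [← mul_prod_erase univ w (mem_univ i)]
    have h2 : (∏ j ∈ univ.erase i, u j) * ∏ j ∈ univ.erase i, w j = 1 := by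
      rw [← prod_mul_distrib, prod_congr rfl fun i _ => h i, prod_const_one]
    linear_combination w i * h2
  constructor
  · intro hs
    calc ∑ i, x i * w i = (∑ i, x i * ∏ j ∈ univ.erase i, u j) * ∏ j, w j := by
          rw [sum_mul]
          exact sum_congr rfl fun i _ => by rw [mul_assoc, h1]
      _ = c := by rw [hs, mul_assoc, hU, mul_one]
  · intro hs
    have h3 : ∀ i, w i * ∏ j, u j = ∏ j ∈ univ.erase i, u j := by
      intro i
      rw [← mul_prod_erase univ u (mem_univ i)]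
      linear_combination (∏ j ∈ univ.erase i, u j) * h i
    rw [← hs, sum_mul]
    exact sum_congr rfl fun i _ => by rw [mul_assoc, h3]

theorem geo_unit (hp : 7 ≤ p) {k : ℕ} (hk : ¬ p ∣ k) :
    aeval (ex (1 : ZMod p)) (geo k) * (tr (k : ZMod p)⁻¹ 0 0 0 0 * hh (k : ZMod p) * gg 1) = 1 := by
  have h2 := two_ne hp
  have h3 := three_ne hp
  have h5 := five_ne hp
  have hk0 : (k : ZMod p) ≠ 0 := by
    intro h
    rw [ZMod.natCast_eq_zero_iff] at h
    exact hk h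
  have h1 : aeval (ex (1 : ZMod p)) (geo k) * gg 1 =
      tr (k : ZMod p) 0 0 0 0 * gg (k : ZMod p) := by
    rw [aeval_geo, sum_congr rfl fun i _ => ex_pow h2 h3 i, geom_gg h2 h3 h5, gg, tr_mul]
    congr 1
    · ring
    · ring
    · ring
    · ring
    · ring
  have h4 : (tr (k : ZMod p) 0 0 0 0 : R5 (ZMod p)) * tr (k : ZMod p)⁻¹ 0 0 0 0 = 1 := by
    rw [tr_mul, tr_one, mul_inv_cancel₀ hk0]
    congr 1
    · ring
    · ring
    · ring
    · ring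
  calc _ = (aeval (ex (1 : ZMod p)) (geo k) * gg 1) * tr (k : ZMod p)⁻¹ 0 0 0 0 *
        hh (k : ZMod p) := by ring
    _ = (tr (k : ZMod p) 0 0 0 0 * tr (k : ZMod p)⁻¹ 0 0 0 0) *
        (gg (k : ZMod p) * hh (k : ZMod p)) := by rw [h1]; ring
    _ = 1 := by rw [h4, gg_hh h2 h3 h5, mul_one]

theorem key (hp : 7 ≤ p) {ζ : ℂ} (hζ : IsPrimitiveRoot ζ p) {ι : Type*} [Fintype ι]
    (a b n : ι → ℕ) (ha : ∀ i, ¬ p ∣ a i) (hb : ∀ i, ¬ p ∣ b i) (M : ℤ[X])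
    (h : ∑ i, ζ ^ n i / ((1 - ζ ^ a i) * (1 - ζ ^ b i)) = aeval ζ M) :
    ∑ i, ex (n i : ZMod p) * (tr (a i : ZMod p)⁻¹ 0 0 0 0 * hh (a i : ZMod p)) *
      (tr (b i : ZMod p)⁻¹ 0 0 0 0 * hh (b i : ZMod p)) =
      tr 0 0 1 0 0 * aeval (ex (1 : ZMod p)) M := by
  classical
  have h2 := two_ne hp
  have h3 := three_ne hp
  have h5 := five_ne hp
  have hz1 : ζ - 1 ≠ 0 := sub_ne_zero.mpr (hζ.ne_one (by omega))
  have hg : ∀ k : ℕ, aeval ζ (geo k) * (ζ - 1) = ζ ^ k - 1 := fun k => by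
    rw [aeval_geo, geom_sum_mul]
  have hg0 : ∀ k : ℕ, ¬ p ∣ k → aeval ζ (geo k) ≠ 0 := by
    intro k hk h0
    have h1 := hg k
    rw [h0, zero_mul] at h1
    exact hk ((hζ.pow_eq_one_iff_dvd k).mp (sub_eq_zero.mp h1.symm))
  -- the polynomial
  set T : ℤ[X] := ∑ i, X ^ n i * ∏ j ∈ univ.erase i, (geo (a j) * geo (b j)) -
    (X - 1) ^ 2 * M * ∏ j, (geo (a j) * geo (b j)) with hT
  have hT0 : aeval ζ T = 0 := by
    rw [hT, map_sub, map_sum, sub_eq_zero]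
    simp only [map_mul, map_prod, map_pow, aeval_X, map_sub, map_one]
    rw [clear (fun i => ζ ^ n i) (fun i => aeval ζ (geo (a i)) * aeval ζ (geo (b i)))
      (fun i => (aeval ζ (geo (a i)) * aeval ζ (geo (b i)))⁻¹) _
      (fun i => mul_inv_cancel₀ (mul_ne_zero (hg0 _ (ha i)) (hg0 _ (hb i))))]
    rw [← h, mul_sum]
    refine sum_congr rfl fun i _ => ?_
    have e1 : 1 - ζ ^ a i = -(aeval ζ (geo (a i)) * (ζ - 1)) := by rw [hg]; ring
    have e2 : 1 - ζ ^ b i = -(aeval ζ (geo (b i)) * (ζ - 1)) := by rw [hg]; ring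
    rw [e1, e2]
    have h6 := hg0 _ (ha i)
    have h7 := hg0 _ (hb i)
    field_simp
  have hT1 := aeval_ex_eq_zero hp hζ T hT0
  rw [hT, map_sub, map_sum, sub_eq_zero] at hT1
  simp only [map_mul, map_prod, map_pow, aeval_X, map_sub, map_one] at hT1
  rw [clear (fun i => ex (1 : ZMod p) ^ n i)
    (fun i => aeval (ex (1 : ZMod p)) (geo (a i)) * aeval (ex (1 : ZMod p)) (geo (b i)))
    (fun i => (tr (a i : ZMod p)⁻¹ 0 0 0 0 * hh (a i : ZMod p) * gg 1) *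
      (tr (b i : ZMod p)⁻¹ 0 0 0 0 * hh (b i : ZMod p) * gg 1)) _
    (fun i => by
      have e1 := geo_unit hp (ha i)
      have e2 := geo_unit hp (hb i)
      linear_combination (aeval (ex (1 : ZMod p)) (geo (b i)) *
        (tr (b i : ZMod p)⁻¹ 0 0 0 0 * hh (b i : ZMod p) * gg 1)) * e1 + e2)] at hT1
  have hgh := gg_hh h2 h3 h5 (1 : ZMod p)
  have hy2 : (tr 0 1 0 0 0 : R5 (ZMod p)) ^ 2 = tr 0 0 1 0 0 := by
    rw [pow_two, tr_mul]
    simp
  calc _ = (∑ i, ex (1 : ZMod p) ^ n i * ((tr (a i : ZMod p)⁻¹ 0 0 0 0 * hh (a i : ZMod p) * gg 1) *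
        (tr (b i : ZMod p)⁻¹ 0 0 0 0 * hh (b i : ZMod p) * gg 1))) * hh 1 ^ 2 := by
        rw [sum_mul]
        refine sum_congr rfl fun i _ => ?_
        rw [ex_pow h2 h3]
        linear_combination (-(ex (n i : ZMod p) *
          (tr (a i : ZMod p)⁻¹ 0 0 0 0 * hh (a i : ZMod p)) *
          (tr (b i : ZMod p)⁻¹ 0 0 0 0 * hh (b i : ZMod p))) * (gg 1 * hh 1 + 1)) * hgh
    _ = _ := by
        rw [hT1, ex_sub_one hp, ← hy2]
        linear_combination (tr 0 1 0 0 0 ^ 2 * aeval (ex (1 : ZMod p)) M * (gg 1 * hh 1 + 1)) * hgh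

theorem intCast_tr (z : ℤ) : ((z : ℤ) : R5 (ZMod p)) = tr (z : ZMod p) 0 0 0 0 := by
  simp [tr]

theorem aeval_const (hp : 7 ≤ p) (M : ℤ[X]) : ∃ c1 c2 c3 c4 : ZMod p,
    aeval (ex (1 : ZMod p)) M = tr ((M.eval 1 : ℤ) : ZMod p) c1 c2 c3 c4 := by
  have h2 := two_ne hp
  have h3 := three_ne hp
  induction M using Polynomial.induction_on' with
  | add P Q hP hQ =>
    obtain ⟨a1, a2, a3, a4, hP⟩ := hP
    obtain ⟨b1, b2, b3, b4, hQ⟩ := hQ
    refine ⟨a1 + b1, a2 + b2, a3 + b3, a4 + b4, ?_⟩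
    rw [map_add, hP, hQ, tr_add, eval_add]
    push_cast
    rfl
  | monomial n z =>
    have h4 : aeval (ex (1 : ZMod p)) (C z) = tr (z : ZMod p) 0 0 0 0 := by
      rw [← intCast_tr]
      simp
    have h5 : aeval (ex (1 : ZMod p)) (C z * X ^ n) = tr (z : ZMod p) 0 0 0 0 *
        tr 1 (n : ZMod p) ((n : ZMod p) ^ 2 / 2) ((n : ZMod p) ^ 3 / 6) ((n : ZMod p) ^ 4 / 24) := by
      rw [map_mul, map_pow, aeval_X, ex_pow h2 h3, h4, ex]
    rw [tr_mul] at h5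
    have h6 : ((monomial n z : ℤ[X]).eval 1 : ℤ) = z := by simp
    rw [h6, ← C_mul_X_pow_eq_monomial, h5, mul_one]
    exact ⟨_, _, _, _, rfl⟩

/-- the terms of order at most two -/
theorem orders (hp : 7 ≤ p) {ζ : ℂ} (hζ : IsPrimitiveRoot ζ p) {ι : Type*} [Fintype ι]
    (a b n : ι → ZMod p) (ha : ∀ i, a i ≠ 0) (hb : ∀ i, b i ≠ 0) (M : ℤ[X])
    (h : ∑ i, ζ ^ (n i).val / ((1 - ζ ^ (a i).val) * (1 - ζ ^ (b i).val)) = aeval ζ M) :
    ∑ i, (a i * b i)⁻¹ = 0 ∧ ∑ i, (2 * n i - (a i + b i)) * (a i * b i)⁻¹ = 0 ∧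
      ∑ i, (6 * n i ^ 2 - 6 * n i * (a i + b i) + (a i ^ 2 + 3 * (a i * b i) + b i ^ 2)) *
        (a i * b i)⁻¹ = 12 * ((M.eval 1 : ℤ) : ZMod p) := by
  have h2 := two_ne hp
  have h3 := three_ne hp
  have h5 := five_ne hp
  have h12 : (12 : ZMod p) ≠ 0 := by
    have : (12 : ZMod p) = 2 * 2 * 3 := by norm_num
    rw [this]; exact mul_ne_zero (mul_ne_zero h2 h2) h3
  have hval : ∀ x : ZMod p, ((x.val : ℕ) : ZMod p) = x := fun x => ZMod.natCast_zmod_val x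
  have hnd : ∀ x : ZMod p, x ≠ 0 → ¬ p ∣ x.val := by
    intro x hx hd
    exact hx (by rw [← hval x, (ZMod.natCast_eq_zero_iff _ _).mpr hd])
  have hk := key hp hζ (fun i => (a i).val) (fun i => (b i).val) (fun i => (n i).val)
    (fun i => hnd _ (ha i)) (fun i => hnd _ (hb i)) M h
  obtain ⟨c1, c2, c3, c4, hc⟩ := aeval_const hp M
  rw [hc, tr_mul] at hk
  simp only [hval, ex, hh, tr_mul, tr_sum] at hk
  obtain ⟨e0, e1, e2, -, -⟩ := tr_inj hk
  refine ⟨?_, ?_, ?_⟩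
  · rw [← sum_congr rfl fun i _ => ?_]
    · exact e0.trans (by ring)
    · rw [mul_inv]
      ring
  · have h6 : ∑ i, (2 * n i - (a i + b i)) * (a i * b i)⁻¹ = 2 * (0 : ZMod p) := by
      rw [← (show _ = (0 : ZMod p) from e1.trans (by ring)), mul_sum]
      refine sum_congr rfl fun i _ => ?_
      rw [mul_inv]
      field_simp
      ring
    rw [h6, mul_zero]
  · rw [← (show _ = ((M.eval 1 : ℤ) : ZMod p) from e2.trans (by ring)), mul_sum]
    refine sum_congr rfl fun i _ => ?_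
    have hai := ha i
    have hbi := hb i
    rw [mul_inv]
    field_simp
    ring

/-- the terms of order three and four, for the trivial bundle -/
theorem orders_zero (hp : 7 ≤ p) {ζ : ℂ} (hζ : IsPrimitiveRoot ζ p) {ι : Type*} [Fintype ι]
    (a b : ι → ZMod p) (ha : ∀ i, a i ≠ 0) (hb : ∀ i, b i ≠ 0)
    (h : ∑ i, 1 / ((1 - ζ ^ (a i).val) * (1 - ζ ^ (b i).val)) = 1) :
    ∑ i, (a i + b i) = 0 ∧
      ∑ i, (7 * (a i * b i) ^ 2 - (a i ^ 2 + b i ^ 2) ^ 2) * (a i * b i)⁻¹ = 0 := by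
  have h2 := two_ne hp
  have h3 := three_ne hp
  have h5 := five_ne hp
  have h12 : (12 : ZMod p) ≠ 0 := by
    have : (12 : ZMod p) = 2 * 2 * 3 := by norm_num
    rw [this]; exact mul_ne_zero (mul_ne_zero h2 h2) h3
  have h720 : (720 : ZMod p) ≠ 0 := by
    have : (720 : ZMod p) = 12 * 12 * 5 := by norm_num
    rw [this]; exact mul_ne_zero (mul_ne_zero h12 h12) h5
  have hval : ∀ x : ZMod p, ((x.val : ℕ) : ZMod p) = x := fun x => ZMod.natCast_zmod_val x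
  have hnd : ∀ x : ZMod p, x ≠ 0 → ¬ p ∣ x.val := by
    intro x hx hd
    exact hx (by rw [← hval x, (ZMod.natCast_eq_zero_iff _ _).mpr hd])
  have hk := key hp hζ (fun i => (a i).val) (fun i => (b i).val) (fun _ => 0)
    (fun i => hnd _ (ha i)) (fun i => hnd _ (hb i)) 1 (by simpa using h)
  rw [map_one, mul_one] at hk
  simp only [hval, ex, hh, tr_mul, tr_sum] at hk
  obtain ⟨-, -, -, e3, e4⟩ := tr_inj hk
  constructor
  · have h6 : ∑ i, (a i + b i) = -24 * (0 : ZMod p) := by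
      rw [← e3, mul_sum]
      refine sum_congr rfl fun i _ => ?_
      have hai := ha i
      have hbi := hb i
      push_cast
      field_simp
      ring
    rw [h6, mul_zero]
  · have h6 : ∑ i, (7 * (a i * b i) ^ 2 - (a i ^ 2 + b i ^ 2) ^ 2) * (a i * b i)⁻¹ =
        720 * (0 : ZMod p) := by
      rw [← e4, mul_sum]
      refine sum_congr rfl fun i _ => ?_
      have hai := ha i
      have hbi := hb i
      push_cast
      field_simp
      ring
    rw [h6, mul_zero]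

/-- the terms of order at most two, for the class `(r, s)` -/
theorem orders_class (hp : 7 ≤ p) {ζ : ℂ} (hζ : IsPrimitiveRoot ζ p) {ι : Type*} [Fintype ι]
    (a b n : ι → ZMod p) (ha : ∀ i, a i ≠ 0) (hb : ∀ i, b i ≠ 0) (m : ZMod p → ℤ)
    (h : ∑ i, ζ ^ (n i).val / ((1 - ζ ^ (a i).val) * (1 - ζ ^ (b i).val)) =
      ∑ j, (m j : ℂ) * ζ ^ j.val) :
    ∑ i, (a i * b i)⁻¹ = 0 ∧ ∑ i, (2 * n i - (a i + b i)) * (a i * b i)⁻¹ = 0 ∧
      ∑ i, (6 * n i ^ 2 - 6 * n i * (a i + b i) + (a i ^ 2 + 3 * (a i * b i) + b i ^ 2)) *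
        (a i * b i)⁻¹ = 12 * ((∑ j, m j : ℤ) : ZMod p) := by
  obtain ⟨h0, h1, h2⟩ := orders hp hζ a b n ha hb (∑ j, C (m j) * Polynomial.X ^ j.val) (by
    rw [h, map_sum]
    refine sum_congr rfl fun j _ => ?_
    simp)
  refine ⟨h0, h1, ?_⟩
  rw [h2, eval_finsetSum]
  have h3 : ∑ j, (C (m j) * Polynomial.X ^ j.val : ℤ[X]).eval 1 = ∑ j, m j :=
    sum_congr rfl fun j _ => by simp
  rw [h3]

/-- the localisation formula modulo `p` for `E`, `F` and the terms of degree three and four of the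
Todd series, from the holomorphic Lefschetz formula -/
theorem lef_relations (hp : 7 ≤ p) {ι : Type*} [Fintype ι] (a b e f : ι → ZMod p)
    (ha : ∀ i, a i ≠ 0) (hb : ∀ i, b i ≠ 0) (z : ℂ) (hz : IsPrimitiveRoot z p)
    (h : ∀ r s : ℕ, ∃ m : ZMod p → ℤ, ∑ j, m j = ((r : ℤ) - 1) * ((s : ℤ) - 1) ∧
      (r = 0 → s = 0 → m = Pi.single 0 1) ∧
      ∑ i, z ^ (r * e i + s * f i).val / ((1 - z ^ (a i).val) * (1 - z ^ (b i).val)) =
        ∑ j, (m j : ℂ) * z ^ j.val) :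
    ∑ i, (a i * b i)⁻¹ = 0 ∧ ∑ i, e i * (a i * b i)⁻¹ = 0 ∧
      ∑ i, f i * (a i * b i)⁻¹ = 0 ∧ ∑ i, e i ^ 2 * (a i * b i)⁻¹ = 0 ∧
      ∑ i, f i ^ 2 * (a i * b i)⁻¹ = 0 ∧
      ∑ i, e i * f i * (a i * b i)⁻¹ = 1 ∧ ∑ i, (a i + b i) = 0 ∧
      ∑ i, (7 * (a i * b i) ^ 2 - (a i ^ 2 + b i ^ 2) ^ 2) * (a i * b i)⁻¹ = 0 := by
  have h2 := two_ne hp
  have h3 := three_ne hp
  have h12 : (12 : ZMod p) ≠ 0 := by
    have : (12 : ZMod p) = 2 * 2 * 3 := by norm_num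
    rw [this]; exact mul_ne_zero (mul_ne_zero h2 h2) h3
  have H : ∀ r s : ℕ, ∑ i, (a i * b i)⁻¹ = 0 ∧
      ∑ i, (2 * (r * e i + s * f i) - (a i + b i)) * (a i * b i)⁻¹ = 0 ∧
      ∑ i, (6 * (r * e i + s * f i) ^ 2 - 6 * (r * e i + s * f i) * (a i + b i) +
        (a i ^ 2 + 3 * (a i * b i) + b i ^ 2)) * (a i * b i)⁻¹ =
        12 * (((r : ZMod p) - 1) * ((s : ZMod p) - 1)) := by
    intro r s
    obtain ⟨m, hm, -, hs⟩ := h r s
    obtain ⟨h0, h1, h2⟩ := orders_class hp hz a b (fun i => r * e i + s * f i) ha hb m hs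
    refine ⟨h0, h1, ?_⟩
    rw [h2, hm]
    push_cast
    ring
  have e1 : ∀ r s : ℕ, ∑ i, (2 * (r * e i + s * f i) - (a i + b i)) * (a i * b i)⁻¹ =
      2 * r * (∑ i, e i * (a i * b i)⁻¹) + 2 * s * (∑ i, f i * (a i * b i)⁻¹) -
        ∑ i, (a i + b i) * (a i * b i)⁻¹ := by
    intro r s
    simp only [mul_sum, ← sum_add_distrib, ← sum_sub_distrib]
    exact sum_congr rfl fun i _ => by ring
  have e2 : ∀ r s : ℕ, ∑ i, (6 * (r * e i + s * f i) ^ 2 - 6 * (r * e i + s * f i) * (a i + b i) +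
        (a i ^ 2 + 3 * (a i * b i) + b i ^ 2)) * (a i * b i)⁻¹ =
      6 * r ^ 2 * (∑ i, e i ^ 2 * (a i * b i)⁻¹) + 6 * s ^ 2 * (∑ i, f i ^ 2 * (a i * b i)⁻¹) +
        12 * (r * s) * (∑ i, e i * f i * (a i * b i)⁻¹) -
        6 * r * (∑ i, e i * (a i + b i) * (a i * b i)⁻¹) -
        6 * s * (∑ i, f i * (a i + b i) * (a i * b i)⁻¹) +
        ∑ i, (a i ^ 2 + 3 * (a i * b i) + b i ^ 2) * (a i * b i)⁻¹ := by
    intro r s
    simp only [mul_sum, ← sum_add_distrib, ← sum_sub_distrib]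
    exact sum_congr rfl fun i _ => by ring
  simp only [e1, e2] at H
  obtain ⟨h0, h00, h01⟩ := H 0 0
  obtain ⟨-, hE, hE1⟩ := H 1 0
  obtain ⟨-, -, hE2⟩ := H 2 0
  obtain ⟨-, hF, hF1⟩ := H 0 1
  obtain ⟨-, -, hF2⟩ := H 0 2
  obtain ⟨-, -, hEF⟩ := H 1 1
  push_cast at h00 h01 hE hE1 hE2 hF hF1 hF2 hEF
  have hz0 : ∑ i, 1 / ((1 - z ^ (a i).val) * (1 - z ^ (b i).val)) = 1 := by
    obtain ⟨m, -, hm, hs⟩ := h 0 0
    rw [hm rfl rfl] at hs
    simpa [Pi.single_apply] using hs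
  obtain ⟨t3, t4⟩ := orders_zero hp hz a b ha hb hz0
  refine ⟨h0, ?_, ?_, ?_, ?_, ?_, t3, t4⟩
  · exact mul_left_cancel₀ h2 (by linear_combination hE - h00)
  · exact mul_left_cancel₀ h2 (by linear_combination hF - h00)
  · exact mul_left_cancel₀ h12 (by linear_combination hE2 - 2 * hE1 + h01)
  · exact mul_left_cancel₀ h12 (by linear_combination hF2 - 2 * hF1 + h01)
  · exact mul_left_cancel₀ h12 (by linear_combination hEF - hE1 - hF1 + h01)

end Key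

end Pool.Agent.H52.FQ.Lef
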