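import Pool.Agent.H52.FQ.Enum

/-!
The finite check, by the kernel.
-/

namespace Pool.Agent.H52.FQ

set_option maxRecDepth 100000 in
theorem check_11 : check 11 = true := by decide +kernel

set_option maxRecDepth 100000 in
theorem check_13 : check 13 = true := by decide +kernel

set_option maxRecDepth 100000 in
theorem check_17 : check 17 = true := by decide +kernel

set_option maxRecDepth 100000 in
theorem check_19 : check 19 = true := by decide +kernel

set_option maxRecDepth 100000 in
theorem check_23 : check 23 = true := by decide +kernel

end Pool.Agent.H52.FQ
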