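import Pool.Agent.H52.FQ.Enum

/-!
# The numerical data of a curve
-/

namespace Pool.Agent.H52.FQ

/-- The numerical data of an invariant curve of class `(r, s)`: the fixed points of `g` on the
normalisation in the first row `R` (ratio `± t`) and in the second row `R'` (ratio `± t'`), the genus
`gen` of the normalisation and `gen'` of its quotient. -/
structure NumData (p r s t t' : ℕ) where
  R : List (ℕ × ℕ)
  R' : List (ℕ × ℕ)
  mem : ∀ x ∈ R, 1 ≤ x.1 ∧ x.1 < p ∧ (x.2 = t ∨ x.2 = p - t)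
  mem' : ∀ x ∈ R', 1 ≤ x.1 ∧ x.1 < p ∧ (x.2 = t' ∨ x.2 = p - t')
  sum : (rowSum R + s) % p = 0
  sum' : (rowSum R' + s) % p = 0
  val : (rowVal p R + rowVal p R' + 2 * r) % p = 0
  gen : ℕ
  gen' : ℕ
  rh : 2 * gen + 2 * p = 2 + 2 * p * gen' + (p - 1) * (R.length + R'.length)
  adj : 2 * gen + (rowCost p R + rowCost p R') ≤ 2 * ((r + 1) * (s + 1))

end Pool.Agent.H52.FQ
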