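import Mathlib
import Pool.Agent.H52.FQ.NumDefs
import Pool.Agent.H52.FQ.Chk

/-!
# The numerical part

No invariant curve of class `(0, s)` or `(r, 0)` with `r, s ≤ 3`; not both classes `(2, 3)` and
`(3, 2)` contain an invariant curve, for `p ≥ 11`.
-/

namespace Pool.Agent.H52.FQ

variable {p r s t t' : ℕ}

/-- the value of a branch -/
def vl (p : ℕ) (x : ℕ × ℕ) : ℕ := x.2 * x.1 % p

theorem vl_lt (hp : 0 < p) (x : ℕ × ℕ) : vl p x < p := Nat.mod_lt _ hp

theorem vl_pos (hp : p.Prime) {x : ℕ × ℕ} (ht : 1 ≤ t ∧ t < p) (h1 : 1 ≤ x.1) (h2 : x.1 < p)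
    (h3 : x.2 = t ∨ x.2 = p - t) : 1 ≤ vl p x := by
  rw [Nat.one_le_iff_ne_zero]
  intro h
  have hd : p ∣ x.2 * x.1 := Nat.dvd_of_mod_eq_zero h
  rcases (Nat.Prime.dvd_mul hp).mp hd with h4 | h4
  · have := Nat.le_of_dvd (by omega) h4
    omega
  · have := Nat.le_of_dvd (by omega) h4
    omega

theorem eq_sub {m s : ℕ} (hs : 0 < s) (hsp : s < p) (hm : m < p) (h : (m + s) % p = 0) :
    m = p - s := by
  have h1 : m + s = p := Nat.eq_of_dvd_of_lt_two_mul (by omega) (Nat.dvd_of_mod_eq_zero h) (by omega)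
  omega

/-- Riemann–Hurwitz, for small genus -/
theorem rh_cases (hp : p.Prime) (h11 : 11 ≤ p) {g g' N : ℕ}
    (h : 2 * g + 2 * p = 2 + 2 * p * g' + (p - 1) * N) (hN : 2 ≤ N) (hg : 2 * g ≤ 24) :
    (N = 2 ∧ g = 0) ∨ (N = 3 ∧ 2 * g = p - 1) ∨ (N = 4 ∧ 2 * g = 2 * (p - 1)) ∨
      (N = 2 ∧ g = 11) := by
  obtain ⟨q, rfl⟩ : ∃ q, p = q + 1 := ⟨p - 1, by omega⟩
  have h12 : q ≠ 11 := by
    rintro rfl
    exact absurd hp (by decide)
  rw [Nat.add_sub_cancel] at h ⊢
  rcases Nat.lt_or_ge g' 1 with h0 | h0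
  · have e : g' = 0 := by omega
    subst e
    have hN4 : N ≤ 4 := by
      by_contra hc
      have := Nat.mul_le_mul_left q (show 5 ≤ N by omega)
      omega
    interval_cases N <;> omega
  · rcases Nat.lt_or_ge g' 2 with h1 | h1
    · have e : g' = 1 := by omega
      subst e
      have hN4 : N ≤ 2 := by
        by_contra hc
        have := Nat.mul_le_mul_left q (show 3 ≤ N by omega)
        omega
      have e2 : N = 2 := by omega
      subst e2
      omega
    · exfalso
      have h3 := Nat.mul_le_mul_left (2 * (q + 1)) h1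
      have h4 := Nat.mul_le_mul_left q hN
      omega

theorem NumData.ne_nil (D : NumData p r s t t') (hs : 0 < s) (hsp : s < p) : D.R ≠ [] ∧ D.R' ≠ [] := by
  constructor
  · intro h
    have h1 := D.sum
    rw [h] at h1
    simp [rowSum, Nat.mod_eq_of_lt hsp] at h1
    omega
  · intro h
    have h1 := D.sum'
    rw [h] at h1
    simp [rowSum, Nat.mod_eq_of_lt hsp] at h1
    omega

theorem NumData.length_pos (D : NumData p r s t t') (hs : 0 < s) (hsp : s < p) :
    1 ≤ D.R.length ∧ 1 ≤ D.R'.length := by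
  obtain ⟨h1, h2⟩ := D.ne_nil hs hsp
  exact ⟨List.length_pos_iff.mpr h1, List.length_pos_iff.mpr h2⟩

/-- two fixed points, one in each row -/
theorem NumData.cost_two (D : NumData p r s t t') (hp : p.Prime) (ht : 1 ≤ t ∧ t < p)
    (ht' : 1 ≤ t' ∧ t' < p) (hs : 0 < s) (hsp : s < p) (hr : 2 * r + 2 ≤ p)
    (h1 : D.R.length = 1) (h2 : D.R'.length = 1) :
    (p - s - 1) * (p - 2 * r - 2) ≤ rowCost p D.R + rowCost p D.R' := by
  obtain ⟨x, hx⟩ := List.length_eq_one_iff.mp h1
  obtain ⟨y, hy⟩ := List.length_eq_one_iff.mp h2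
  have mx := D.mem x (by rw [hx]; simp)
  have my := D.mem' y (by rw [hy]; simp)
  have sx := D.sum
  have sy := D.sum'
  have v := D.val
  rw [hx, hy] at v
  rw [hx] at sx
  rw [hy] at sy
  simp only [rowSum, rowVal, List.map_cons, List.map_nil, List.sum_cons, List.sum_nil,
    Nat.add_zero] at sx sy v
  have ex := eq_sub hs hsp mx.2.1 sx
  have ey := eq_sub hs hsp my.2.1 sy
  have px := vl_pos hp ht mx.1 mx.2.1 mx.2.2
  have py := vl_pos hp ht' my.1 my.2.1 my.2.2
  have hv : p ≤ vl p x + vl p y + 2 * r := Nat.le_of_dvd (by omega) (Nat.dvd_of_mod_eq_zero v)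
  rw [hx, hy]
  simp only [rowCost, cost1, List.map_nil, List.sum_nil, Nat.add_zero]
  change _ ≤ (x.1 - 1) * (vl p x - 1) + (y.1 - 1) * (vl p y - 1)
  rw [ex, ey, ← Nat.mul_add]
  exact Nat.mul_le_mul_left _ (by omega)

theorem num_zero_s (hp : p.Prime) (h11 : 11 ≤ p) (ht : 1 ≤ t ∧ t < p)
    (ht' : 1 ≤ t' ∧ t' < p) (hs : 1 ≤ s) (hs' : s ≤ 3) : NumData p 0 s t t' → False := by
  intro D
  have hl := D.length_pos hs (by omega)
  have ha := D.adj
  rcases rh_cases hp h11 D.rh (by omega) (by omega) with h | h | h | h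
  · have hc := D.cost_two hp ht ht' hs (by omega) (by omega) (by omega) (by omega)
    have h3 := Nat.mul_le_mul (show 7 ≤ p - s - 1 by omega) (show 9 ≤ p - 2 * 0 - 2 by omega)
    omega
  all_goals omega

/-- two points in the same row whose orders have sum `p` -/
theorem pair_zero (hp : p.Prime) (ht : 1 ≤ t ∧ t < p) (hr : 1 ≤ r) (hr' : 2 * r + 2 ≤ p)
    {x y : ℕ × ℕ} (mx : 1 ≤ x.1 ∧ x.1 < p ∧ (x.2 = t ∨ x.2 = p - t))
    (my : 1 ≤ y.1 ∧ y.1 < p ∧ (y.2 = t ∨ y.2 = p - t)) (hs : (x.1 + y.1) % p = 0)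
    (hv : (vl p x + vl p y + 2 * r) % p = 0) :
    (p - 2) * (p - r - 1) ≤ rowCost p [x, y] := by
  have hp0 : 0 < p := hp.pos
  have h1 : x.1 + y.1 = p :=
    Nat.eq_of_dvd_of_lt_two_mul (by omega) (Nat.dvd_of_mod_eq_zero hs) (by omega)
  have px := vl_pos hp ht mx.1 mx.2.1 mx.2.2
  have py := vl_pos hp ht my.1 my.2.1 my.2.2
  have lx := vl_lt hp0 x
  have ly := vl_lt hp0 y
  have cx : (vl p x : ZMod p) = x.2 * x.1 := by
    rw [vl, ZMod.natCast_mod, Nat.cast_mul]
  have cy : (vl p y : ZMod p) = y.2 * y.1 := by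
    rw [vl, ZMod.natCast_mod, Nat.cast_mul]
  have c1 : (x.1 : ZMod p) + y.1 = 0 := by
    rw [← Nat.cast_add, h1, ZMod.natCast_self]
  have cv : (vl p x : ZMod p) + vl p y + 2 * r = 0 := by
    have := (ZMod.natCast_eq_zero_iff (vl p x + vl p y + 2 * r) p).mpr (Nat.dvd_of_mod_eq_zero hv)
    push_cast at this
    exact this
  have cpt : ((p - t : ℕ) : ZMod p) = -t := by
    rw [Nat.cast_sub ht.2.le, ZMod.natCast_self, zero_sub]
  have hne : ¬ (2 * (r : ZMod p) = 0) := by
    intro h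
    have h2 : ((2 * r : ℕ) : ZMod p) = 0 := by
      push_cast
      exact h
    have := Nat.le_of_dvd (by omega) ((ZMod.natCast_eq_zero_iff _ _).mp h2)
    omega
  -- the two values are equal
  have heq : (vl p x : ZMod p) = vl p y := by
    rcases mx.2.2 with hx | hx <;> rcases my.2.2 with hy | hy
    · exfalso
      apply hne
      rw [hx] at cx
      rw [hy] at cy
      linear_combination cv - cx - cy - (t : ZMod p) * c1
    · rw [cx, cy, hx, hy, cpt]
      linear_combination (t : ZMod p) * c1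
    · rw [cx, cy, hx, hy, cpt]
      linear_combination -(t : ZMod p) * c1
    · exfalso
      apply hne
      rw [hx, cpt] at cx
      rw [hy, cpt] at cy
      linear_combination cv - cx - cy + (t : ZMod p) * c1
  have e1 : vl p x = vl p y := by
    have h2 := (ZMod.natCast_eq_natCast_iff' _ _ _).mp heq
    rwa [Nat.mod_eq_of_lt lx, Nat.mod_eq_of_lt ly] at h2
  have e2 : (vl p x + r) % p = 0 := by
    have h3 : (2 : ZMod p) * ((vl p x + r : ℕ) : ZMod p) = 0 := by
      push_cast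
      linear_combination cv + heq
    have h4 : ((2 * (vl p x + r) : ℕ) : ZMod p) = 0 := by
      push_cast at h3 ⊢
      exact h3
    rw [ZMod.natCast_eq_zero_iff] at h4
    rcases (Nat.Prime.dvd_mul hp).mp h4 with h5 | h5
    · have := Nat.le_of_dvd (by norm_num) h5
      omega
    · exact Nat.mod_eq_zero_of_dvd h5
  have e3 := eq_sub (by omega) (by omega) lx e2
  have e4 : vl p y = p - r := e1 ▸ e3
  have h6 : (x.1 - 1) * (vl p x - 1) + (y.1 - 1) * (vl p y - 1) ≤ rowCost p [x, y] := by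
    simp only [rowCost, cost1, List.map_nil, List.sum_nil, Nat.add_zero]
    change _ ≤ (x.1 - 1) * (vl p x - 1) + _ + (y.1 - 1) * (vl p y - 1)
    omega
  rw [e3, e4, ← Nat.add_mul] at h6
  have h7 : x.1 - 1 + (y.1 - 1) = p - 2 := by omega
  rw [h7] at h6
  exact h6

theorem num_r_zero (hp : p.Prime) (h11 : 11 ≤ p) (ht : 1 ≤ t ∧ t < p)
    (ht' : 1 ≤ t' ∧ t' < p) (hr : 1 ≤ r) (hr' : r ≤ 3) : NumData p r 0 t t' → False := by
  intro D
  have ha := D.adj
  have hp0 : 0 < p := hp.pos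
  -- no row has length one
  have hn : D.R.length ≠ 1 := by
    intro h
    obtain ⟨x, hx⟩ := List.length_eq_one_iff.mp h
    have mx := D.mem x (by rw [hx]; simp)
    have sx := D.sum
    rw [hx] at sx
    simp only [rowSum, List.map_cons, List.map_nil, List.sum_cons, List.sum_nil,
      Nat.add_zero] at sx
    rw [Nat.mod_eq_of_lt mx.2.1] at sx
    omega
  have hn' : D.R'.length ≠ 1 := by
    intro h
    obtain ⟨x, hx⟩ := List.length_eq_one_iff.mp h
    have mx := D.mem' x (by rw [hx]; simp)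
    have sx := D.sum'
    rw [hx] at sx
    simp only [rowSum, List.map_cons, List.map_nil, List.sum_cons, List.sum_nil,
      Nat.add_zero] at sx
    rw [Nat.mod_eq_of_lt mx.2.1] at sx
    omega
  have h0 : ¬ (D.R.length = 0 ∧ D.R'.length = 0) := by
    rintro ⟨h1, h2⟩
    have v := D.val
    rw [List.length_eq_zero_iff.mp h1, List.length_eq_zero_iff.mp h2] at v
    simp only [rowVal, List.map_nil, List.sum_nil, Nat.zero_add] at v
    rw [Nat.mod_eq_of_lt (by omega)] at v
    omega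
  have h3 := Nat.mul_le_mul (show 9 ≤ p - 2 by omega) (show 7 ≤ p - r - 1 by omega)
  rcases rh_cases hp h11 D.rh (by omega) (by omega) with h | h | h | h
  · have h4 : (D.R.length = 2 ∧ D.R'.length = 0) ∨ (D.R.length = 0 ∧ D.R'.length = 2) := by omega
    rcases h4 with ⟨h5, h6⟩ | ⟨h5, h6⟩
    · obtain ⟨x, y, hx⟩ := List.length_eq_two.mp h5
      have mx := D.mem x (by rw [hx]; simp)
      have my := D.mem y (by rw [hx]; simp)
      have sx := D.sum
      have v := D.val
      rw [hx, List.length_eq_zero_iff.mp h6] at v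
      rw [hx] at sx
      have hc := pair_zero hp ht hr (by omega) mx my
        (by simpa [rowSum] using sx) (by simpa [rowVal, vl] using v)
      rw [hx, List.length_eq_zero_iff.mp h6] at ha
      simp only [rowCost] at ha hc
      omega
    · obtain ⟨x, y, hx⟩ := List.length_eq_two.mp h6
      have mx := D.mem' x (by rw [hx]; simp)
      have my := D.mem' y (by rw [hx]; simp)
      have sx := D.sum'
      have v := D.val
      rw [hx, List.length_eq_zero_iff.mp h5] at v
      rw [hx] at sx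
      have hc := pair_zero hp ht' hr (by omega) mx my
        (by simpa [rowSum] using sx) (by simpa [rowVal, vl] using v)
      rw [hx, List.length_eq_zero_iff.mp h5] at ha
      simp only [rowCost] at ha hc
      omega
  all_goals omega

/-! ### Soundness of the finite check -/

theorem mem_pair (x t p : ℕ) (h : x = t ∨ x = p - t) : x ∈ [t, p - t] := by
  rcases h with h | h <;> simp [h]

theorem mem_rows1 {B : ℕ} {x : ℕ × ℕ} (h1 : x.1 = p - s) (h2 : x.2 = t ∨ x.2 = p - t)
    (hB : rowCost p [x] ≤ B) : [x] ∈ rows1 p s t B := by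
  rw [rows1, List.mem_filterMap]
  refine ⟨x.2, mem_pair _ _ _ h2, ?_⟩
  have e : (p - s, x.2) = x := by rw [← h1]
  rw [e, if_pos hB]

theorem mem_rows2 {B : ℕ} {x y : ℕ × ℕ} (hs : s < p)
    (mx : 1 ≤ x.1 ∧ x.1 < p ∧ (x.2 = t ∨ x.2 = p - t))
    (my : 1 ≤ y.1 ∧ y.1 < p ∧ (y.2 = t ∨ y.2 = p - t)) (h : (x.1 + y.1 + s) % p = 0)
    (hB : rowCost p [x, y] ≤ B) : [x, y] ∈ rows2 p s t B := by
  have hc : cost1 p x ≤ B := by
    refine le_trans ?_ hB
    simp only [rowCost]
    omega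
  have hy : (2 * p - s - x.1) % p = y.1 := by
    obtain ⟨k, hk⟩ := Nat.dvd_of_mod_eq_zero h
    have hk1 : k = 1 ∨ k = 2 := by
      rcases Nat.lt_or_ge k 1 with h1 | h1
      · have : k = 0 := by omega
        subst this
        omega
      · rcases Nat.lt_or_ge 2 k with h2 | h2
        · have := Nat.mul_le_mul_left p (show 3 ≤ k by omega)
          omega
        · omega
    rcases hk1 with rfl | rfl
    · have e : 2 * p - s - x.1 = p + y.1 := by omega
      rw [e, Nat.add_mod_left, Nat.mod_eq_of_lt my.2.1]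
    · have e : 2 * p - s - x.1 = y.1 := by omega
      rw [e, Nat.mod_eq_of_lt my.2.1]
  rw [rows2, List.mem_flatMap]
  refine ⟨x.1, List.mem_range.mpr mx.2.1, ?_⟩
  rw [List.mem_flatMap]
  refine ⟨x.2, mem_pair _ _ _ mx.2.2, ?_⟩
  have ex : (x.1, x.2) = x := rfl
  rw [ex, if_pos hc, List.mem_filterMap]
  refine ⟨y.2, mem_pair _ _ _ my.2.2, ?_⟩
  rw [hy]
  have ey : (y.1, y.2) = y := rfl
  simp only [ey]
  rw [if_pos ⟨hB, by omega, by omega⟩]

theorem mem_rows3 {B : ℕ} {x y z : ℕ × ℕ} (hs : s < p)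
    (mx : 1 ≤ x.1 ∧ x.1 < p ∧ (x.2 = t ∨ x.2 = p - t))
    (my : 1 ≤ y.1 ∧ y.1 < p ∧ (y.2 = t ∨ y.2 = p - t))
    (mz : 1 ≤ z.1 ∧ z.1 < p ∧ (z.2 = t ∨ z.2 = p - t)) (h : (x.1 + y.1 + z.1 + s) % p = 0)
    (hB : rowCost p [x, y, z] ≤ B) : [x, y, z] ∈ rows3 p s t B := by
  have hc : cost1 p x ≤ B ∧ x.1 ≠ 0 := by
    refine ⟨le_trans ?_ hB, by omega⟩
    simp only [rowCost]
    omega
  have hc' : cost1 p y ≤ B ∧ y.1 ≠ 0 := by
    refine ⟨le_trans ?_ hB, by omega⟩
    simp only [rowCost]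
    omega
  have hz : (3 * p - s - x.1 - y.1) % p = z.1 := by
    obtain ⟨k, hk⟩ := Nat.dvd_of_mod_eq_zero h
    have hk1 : k = 1 ∨ k = 2 ∨ k = 3 := by
      rcases Nat.lt_or_ge k 1 with h1 | h1
      · have : k = 0 := by omega
        subst this
        omega
      · rcases Nat.lt_or_ge 3 k with h2 | h2
        · have := Nat.mul_le_mul_left p (show 4 ≤ k by omega)
          omega
        · omega
    rcases hk1 with rfl | rfl | rfl
    · have e : 3 * p - s - x.1 - y.1 = p + (p + z.1) := by omega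
      rw [e, Nat.add_mod_left, Nat.add_mod_left, Nat.mod_eq_of_lt mz.2.1]
    · have e : 3 * p - s - x.1 - y.1 = p + z.1 := by omega
      rw [e, Nat.add_mod_left, Nat.mod_eq_of_lt mz.2.1]
    · have e : 3 * p - s - x.1 - y.1 = z.1 := by omega
      rw [e, Nat.mod_eq_of_lt mz.2.1]
  rw [rows3, List.mem_flatMap]
  refine ⟨x.1, List.mem_range.mpr mx.2.1, ?_⟩
  rw [List.mem_flatMap]
  refine ⟨x.2, mem_pair _ _ _ mx.2.2, ?_⟩
  have ex : (x.1, x.2) = x := rfl
  have ey : (y.1, y.2) = y := rfl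
  have ez : (z.1, z.2) = z := rfl
  rw [ex, if_pos hc, List.mem_flatMap]
  refine ⟨y.1, List.mem_range.mpr my.2.1, ?_⟩
  rw [List.mem_flatMap]
  refine ⟨y.2, mem_pair _ _ _ my.2.2, ?_⟩
  rw [ey, if_pos hc', List.mem_filterMap]
  refine ⟨z.2, mem_pair _ _ _ mz.2.2, ?_⟩
  rw [hz]
  simp only [ez]
  rw [if_pos ⟨hB, by omega⟩]

theorem fit_of {K : ℕ} {L L' : List (List (ℕ × ℕ))} {R R' : List (ℕ × ℕ)} (h : R ∈ L)
    (h' : R' ∈ L') (hv : (rowVal p R + rowVal p R' + 2 * r) % p = 0)
    (hc : rowCost p R + rowCost p R' ≤ K) : fit p r K L L' = true := by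
  rw [fit, List.any_eq_true]
  refine ⟨R, h, ?_⟩
  rw [List.any_eq_true]
  exact ⟨R', h', decide_eq_true ⟨hv, hc⟩⟩

/-- a row of the data is in the list of the rows of its length -/
theorem row1 {B : ℕ} {R : List (ℕ × ℕ)} (hs : 0 < s) (hsp : s < p)
    (hm : ∀ x ∈ R, 1 ≤ x.1 ∧ x.1 < p ∧ (x.2 = t ∨ x.2 = p - t))
    (h : (rowSum R + s) % p = 0) (hl : R.length = 1) (hB : rowCost p R ≤ B) :
    R ∈ rows1 p s t B := by
  obtain ⟨x, rfl⟩ := List.length_eq_one_iff.mp hl
  have mx := hm x (by simp)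
  simp only [rowSum, List.map_cons, List.map_nil, List.sum_cons, List.sum_nil,
    Nat.add_zero] at h
  exact mem_rows1 (eq_sub hs hsp mx.2.1 h) mx.2.2 hB

theorem row2 {B : ℕ} {R : List (ℕ × ℕ)} (hsp : s < p)
    (hm : ∀ x ∈ R, 1 ≤ x.1 ∧ x.1 < p ∧ (x.2 = t ∨ x.2 = p - t))
    (h : (rowSum R + s) % p = 0) (hl : R.length = 2) (hB : rowCost p R ≤ B) :
    R ∈ rows2 p s t B := by
  obtain ⟨x, y, rfl⟩ := List.length_eq_two.mp hl
  simp only [rowSum, List.map_cons, List.map_nil, List.sum_cons, List.sum_nil,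
    Nat.add_zero] at h
  exact mem_rows2 hsp (hm x (by simp)) (hm y (by simp)) h hB

theorem row3 {B : ℕ} {R : List (ℕ × ℕ)} (hsp : s < p)
    (hm : ∀ x ∈ R, 1 ≤ x.1 ∧ x.1 < p ∧ (x.2 = t ∨ x.2 = p - t))
    (h : (rowSum R + s) % p = 0) (hl : R.length = 3) (hB : rowCost p R ≤ B) :
    R ∈ rows3 p s t B := by
  obtain ⟨x, y, z, rfl⟩ := List.length_eq_three.mp hl
  simp only [rowSum, List.map_cons, List.map_nil, List.sum_cons, List.sum_nil,
    Nat.add_zero] at h
  exact mem_rows3 hsp (hm x (by simp)) (hm y (by simp)) (hm z (by simp))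
    (by rwa [← Nat.add_assoc] at h) hB

/-- the data of a curve of class `(2, 3)` or `(3, 2)` are found by the check -/
theorem NumData.adm (D : NumData p r s t t') (hp : p.Prime) (h11 : 11 ≤ p) (ht : 1 ≤ t ∧ t < p)
    (ht' : 1 ≤ t' ∧ t' < p) (hs : 0 < s) (hsp : s < p) (hrs : (r + 1) * (s + 1) = 12)
    (hr : 2 * r + 2 ≤ p) (h3 : 3 ≤ (p - s - 1) * (p - 2 * r - 2)) :
    Pool.Agent.H52.FQ.adm p r s 24 t t' = true := by
  obtain ⟨l1, l2⟩ := D.length_pos hs hsp
  have ha := D.adj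
  rw [hrs] at ha
  have hv := D.val
  rw [Pool.Agent.H52.FQ.adm]
  simp only [Bool.or_eq_true, Bool.and_eq_true, decide_eq_true_eq]
  rcases rh_cases hp h11 D.rh (by omega) (by omega) with h | h | h | h
  · left
    left
    exact fit_of (row1 hs hsp D.mem D.sum (by omega) (by omega))
      (row1 hs hsp D.mem' D.sum' (by omega) (by omega)) hv (by omega)
  · left
    right
    refine ⟨by omega, ?_⟩
    have h4 : (D.R.length = 1 ∧ D.R'.length = 2) ∨ (D.R.length = 2 ∧ D.R'.length = 1) := by omega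
    rcases h4 with ⟨h5, h6⟩ | ⟨h5, h6⟩
    · left
      exact fit_of (row1 hs hsp D.mem D.sum h5 (by omega))
        (row2 hsp D.mem' D.sum' h6 (by omega)) hv (by omega)
    · right
      exact fit_of (row2 hsp D.mem D.sum h5 (by omega))
        (row1 hs hsp D.mem' D.sum' h6 (by omega)) hv (by omega)
  · right
    refine ⟨by omega, ?_⟩
    have h4 : (D.R.length = 1 ∧ D.R'.length = 3) ∨ (D.R.length = 2 ∧ D.R'.length = 2) ∨
      (D.R.length = 3 ∧ D.R'.length = 1) := by omega
    rcases h4 with ⟨h5, h6⟩ | ⟨h5, h6⟩ | ⟨h5, h6⟩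
    · left
      left
      exact fit_of (row1 hs hsp D.mem D.sum h5 (by omega))
        (row3 hsp D.mem' D.sum' h6 (by omega)) hv (by omega)
    · left
      right
      exact fit_of (row2 hsp D.mem D.sum h5 (by omega))
        (row2 hsp D.mem' D.sum' h6 (by omega)) hv (by omega)
    · right
      exact fit_of (row3 hsp D.mem D.sum h5 (by omega))
        (row1 hs hsp D.mem' D.sum' h6 (by omega)) hv (by omega)
  · exfalso
    have hc := D.cost_two hp ht ht' hs hsp hr (by omega) (by omega)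
    omega

/-- replace `t` by `p - t` -/
def NumData.flip (D : NumData p r s t t') (ht : t < p) : NumData p r s (p - t) t' where
  R := D.R
  R' := D.R'
  mem := by
    intro x hx
    obtain ⟨h1, h2, h3⟩ := D.mem x hx
    refine ⟨h1, h2, ?_⟩
    rw [Nat.sub_sub_self ht.le]
    exact h3.symm
  mem' := D.mem'
  sum := D.sum
  sum' := D.sum'
  val := D.val
  gen := D.gen
  gen' := D.gen'
  rh := D.rh
  adj := D.adj

/-- replace `t'` by `p - t'` -/
def NumData.flip' (D : NumData p r s t t') (ht : t' < p) : NumData p r s t (p - t') where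
  R := D.R
  R' := D.R'
  mem := D.mem
  mem' := by
    intro x hx
    obtain ⟨h1, h2, h3⟩ := D.mem' x hx
    refine ⟨h1, h2, ?_⟩
    rw [Nat.sub_sub_self ht.le]
    exact h3.symm
  sum := D.sum
  sum' := D.sum'
  val := D.val
  gen := D.gen
  gen' := D.gen'
  rh := D.rh
  adj := D.adj

theorem check_prime (hp : p.Prime) (h11 : 11 ≤ p) (h29 : p < 29) : check p = true := by
  have h : p = 11 ∨ p = 13 ∨ p = 17 ∨ p = 19 ∨ p = 23 := by
    interval_cases p <;> first | omega | exact absurd hp (by decide)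
  rcases h with rfl | rfl | rfl | rfl | rfl
  · exact check_11
  · exact check_13
  · exact check_17
  · exact check_19
  · exact check_23

theorem num_both_small (hp : p.Prime) (h11 : 11 ≤ p) (h29 : p < 29) (ht : 1 ≤ t ∧ t < (p + 1) / 2)
    (ht' : 1 ≤ t' ∧ t' < (p + 1) / 2) (D : NumData p 2 3 t t') (D' : NumData p 3 2 t t') :
    False := by
  have h1 := D.adm hp h11 (by omega) (by omega) (by omega) (by omega) (by norm_num) (by omega) (by
    have := Nat.mul_le_mul (show 7 ≤ p - 3 - 1 by omega) (show 5 ≤ p - 2 * 2 - 2 by omega)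
    omega)
  have h2 := D'.adm hp h11 (by omega) (by omega) (by omega) (by omega) (by norm_num) (by omega) (by
    have := Nat.mul_le_mul (show 8 ≤ p - 2 - 1 by omega) (show 3 ≤ p - 2 * 3 - 2 by omega)
    omega)
  have h3 := check_prime hp h11 h29
  rw [check, List.all_eq_true] at h3
  have h4 := h3 t (List.mem_range.mpr ht.2)
  rw [List.all_eq_true] at h4
  have h5 := h4 t' (List.mem_range.mpr ht'.2)
  rw [h1, h2] at h5
  simp only [Bool.and_self, Bool.not_true, Bool.or_false, Bool.or_eq_true, beq_iff_eq] at h5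
  omega

theorem num_both (hp : p.Prime) (h11 : 11 ≤ p) (ht : 1 ≤ t ∧ t < p) (ht' : 1 ≤ t' ∧ t' < p) :
    NumData p 2 3 t t' → NumData p 3 2 t t' → False := by
  intro D D'
  rcases Nat.lt_or_ge p 29 with h29 | h29
  · have hodd : p % 2 = 1 := by
      rcases hp.eq_two_or_odd with h | h <;> omega
    rcases Nat.lt_or_ge t ((p + 1) / 2) with h1 | h1 <;>
      rcases Nat.lt_or_ge t' ((p + 1) / 2) with h2 | h2
    · exact num_both_small hp h11 h29 ⟨ht.1, h1⟩ ⟨ht'.1, h2⟩ D D'
    · exact num_both_small hp h11 h29 ⟨ht.1, h1⟩ ⟨by omega, by omega⟩ (D.flip' ht'.2)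
        (D'.flip' ht'.2)
    · exact num_both_small hp h11 h29 ⟨by omega, by omega⟩ ⟨ht'.1, h2⟩ (D.flip ht.2)
        (D'.flip ht.2)
    · exact num_both_small hp h11 h29 ⟨by omega, by omega⟩ ⟨by omega, by omega⟩
        ((D.flip ht.2).flip' ht'.2) ((D'.flip ht.2).flip' ht'.2)
  · have ha := D.adj
    have hl := D.length_pos (by omega) (by omega)
    rcases rh_cases hp h11 D.rh (by omega) (by omega) with h | h | h | h
    · have hc := D.cost_two hp ht ht' (by omega) (by omega) (by omega) (by omega) (by omega)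
      have h3 := Nat.mul_le_mul (show 25 ≤ p - 3 - 1 by omega) (show 23 ≤ p - 2 * 2 - 2 by omega)
      omega
    · omega
    · omega
    · have hc := D.cost_two hp ht ht' (by omega) (by omega) (by omega) (by omega) (by omega)
      have h3 := Nat.mul_le_mul (show 25 ≤ p - 3 - 1 by omega) (show 23 ≤ p - 2 * 2 - 2 by omega)
      omega

end Pool.Agent.H52.FQ
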