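import Pool.Agent.H52.FQ.Conv
import Pool.Agent.H52.FQ.Num

/-!
# No automorphism of prime order `p ≥ 11`
-/

namespace Pool.Agent.H52.FQ

open Finset

section
variable {K : Type*} [Field K]

/-- The sums of the parameters of the branches. -/
theorem branch_sums (m w e f S : Fin 4 → K) (c r s α γ : K) (hmw : ∀ i, m i * w i = 1)
    (h : ∀ i, m i * S i + (r * e i + s * f i) = c)
    (j1 : ∑ i, w i = 0) (jE : ∑ i, e i * w i = 0) (jF : ∑ i, f i * w i = 0)
    (jEE : ∑ i, e i ^ 2 * w i = 0) (jFF : ∑ i, f i ^ 2 * w i = 0)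
    (jEF : ∑ i, e i * f i * w i = 1) :
    ∑ i, S i = 0 ∧ ∑ i, (2 * e i - α) * S i = -2 * s ∧ ∑ i, (2 * f i - γ) * S i = -2 * r := by
  have hS : ∀ i, S i = (c - (r * e i + s * f i)) * w i := by
    intro i
    linear_combination w i * h i - S i * hmw i
  have e1 : ∑ i, S i = 0 := by
    rw [Finset.sum_congr rfl fun i _ => hS i]
    simp only [Fin.sum_univ_four] at j1 jE jF ⊢
    linear_combination c * j1 - r * jE - s * jF
  have e2 : ∑ i, e i * S i = -s := by
    rw [Finset.sum_congr rfl fun i _ => by rw [hS i]]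
    simp only [Fin.sum_univ_four] at jE jEE jEF ⊢
    linear_combination c * jE - r * jEE - s * jEF
  have e3 : ∑ i, f i * S i = -r := by
    rw [Finset.sum_congr rfl fun i _ => by rw [hS i]]
    simp only [Fin.sum_univ_four] at jF jFF jEF ⊢
    linear_combination c * jF - s * jFF - r * jEF
  refine ⟨e1, ?_, ?_⟩
  · simp only [Fin.sum_univ_four] at e1 e2 ⊢
    linear_combination 2 * e2 - α * e1
  · simp only [Fin.sum_univ_four] at e1 e3 ⊢
    linear_combination 2 * e3 - γ * e1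

end

/-- If no component has class `(0, s)`, `(r, 0)` or `(1, 1)`, then an effective divisor of class
`(2, 3)` is irreducible. -/
theorem single_two_three {ι : Type*} (cl : ι → ℕ × ℕ) (L : List ι)
    (hpos : ∀ C ∈ L, 1 ≤ (cl C).1 ∧ 1 ≤ (cl C).2) (hne : ∀ C ∈ L, cl C ≠ (1, 1))
    (h1 : (L.map fun C => (cl C).1).sum = 2) (h2 : (L.map fun C => (cl C).2).sum = 3) :
    ∃ C ∈ L, cl C = (2, 3) := by
  rcases L with _ | ⟨C, _ | ⟨C', _ | ⟨C'', L⟩⟩⟩
  · simp at h1
  · simp at h1 h2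
    exact ⟨C, by simp, Prod.ext h1 h2⟩
  · exfalso
    have a := hpos C (by simp)
    have b := hpos C' (by simp)
    have c := hne C (by simp)
    have d := hne C' (by simp)
    simp at h1 h2
    have c' : ¬ ((cl C).1 = 1 ∧ (cl C).2 = 1) := fun h => c (Prod.ext h.1 h.2)
    have d' : ¬ ((cl C').1 = 1 ∧ (cl C').2 = 1) := fun h => d (Prod.ext h.1 h.2)
    omega
  · exfalso
    have a := hpos C (by simp)
    have b := hpos C' (by simp)
    have c := hpos C'' (by simp)
    simp at h1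
    omega

theorem single_three_two {ι : Type*} (cl : ι → ℕ × ℕ) (L : List ι)
    (hpos : ∀ C ∈ L, 1 ≤ (cl C).1 ∧ 1 ≤ (cl C).2) (hne : ∀ C ∈ L, cl C ≠ (1, 1))
    (h1 : (L.map fun C => (cl C).1).sum = 3) (h2 : (L.map fun C => (cl C).2).sum = 2) :
    ∃ C ∈ L, cl C = (3, 2) := by
  rcases L with _ | ⟨C, _ | ⟨C', _ | ⟨C'', L⟩⟩⟩
  · simp at h1
  · simp at h1 h2
    exact ⟨C, by simp, Prod.ext h1 h2⟩
  · exfalso
    have a := hpos C (by simp)
    have b := hpos C' (by simp)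
    have c := hne C (by simp)
    have d := hne C' (by simp)
    simp at h1 h2
    have c' : ¬ ((cl C).1 = 1 ∧ (cl C).2 = 1) := fun h => c (Prod.ext h.1 h.2)
    have d' : ¬ ((cl C').1 = 1 ∧ (cl C').2 = 1) := fun h => d (Prod.ext h.1 h.2)
    omega
  · exfalso
    have a := hpos C (by simp)
    have b := hpos C' (by simp)
    have c := hpos C'' (by simp)
    simp at h2
    omega

section
variable {p : ℕ} [hp : Fact p.Prime]

/-- The numerical data of all invariant curves, for the same ratios. -/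
theorem data_exist (h7 : 7 ≤ p) (X : Action p) :
    ∃ t t' : ℕ, (1 ≤ t ∧ t < p) ∧ (1 ≤ t' ∧ t' < p) ∧
      ((∀ r s, Nonempty (Curve X r s) → Nonempty (NumData p r s t t')) ∨
        (∀ r s, Nonempty (Curve X r s) → Nonempty (NumData p s r t t'))) := by
  have h2 : (2 : ZMod p) ≠ 0 := by
    intro h
    have : ((2 : ℕ) : ZMod p) = 0 := by exact_mod_cast h
    rw [ZMod.natCast_eq_zero_iff] at this
    exact absurd (Nat.le_of_dvd (by norm_num) this) (by omega)
  have h3 : (3 : ZMod p) ≠ 0 := by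
    intro h
    have : ((3 : ℕ) : ZMod p) = 0 := by exact_mod_cast h
    rw [ZMod.natCast_eq_zero_iff] at this
    exact absurd (Nat.le_of_dvd (by norm_num) this) (by omega)
  have h5 : 5 ≤ p := by omega
  obtain ⟨α, γ, hpair, hab⟩ := classify X.a X.b X.e X.f X.k h2 h3 X.a_ne X.b_ne X.canonical
    X.int_one X.int_E X.int_F X.int_EE X.int_FF X.int_EF X.todd_three X.todd_four
  have hU : ∀ i, 2 * X.e i - α ≠ 0 := by
    intro i
    rcases hab i with ⟨h, -⟩ | ⟨-, h⟩
    · rw [← h]; exact X.a_ne i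
    · rw [← h]; exact X.b_ne i
  have hV : ∀ i, 2 * X.f i - γ ≠ 0 := by
    intro i
    rcases hab i with ⟨-, h⟩ | ⟨h, -⟩
    · rw [← h]; exact X.b_ne i
    · rw [← h]; exact X.a_ne i
  have hdelta : ∀ i l, localDelta (X.a i) (X.b i) l =
      localDelta (2 * X.e i - α) (2 * X.f i - γ) l := by
    intro i l
    rcases hab i with ⟨h, h'⟩ | ⟨h, h'⟩
    · rw [h, h']
    · rw [h, h', localDelta_comm]
  have hsum : ∀ r s (C : Curve X r s), ∑ i, (C.branches i).sum = 0 ∧
      ∑ i, (2 * X.e i - α) * (C.branches i).sum = -2 * s ∧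
      ∑ i, (2 * X.f i - γ) * (C.branches i).sum = -2 * r := fun r s C =>
    branch_sums (fun i => X.a i * X.b i) (fun i => (X.a i * X.b i)⁻¹) X.e X.f
      (fun i => (C.branches i).sum) C.c r s α γ
      (fun i => mul_inv_cancel₀ (mul_ne_zero (X.a_ne i) (X.b_ne i))) C.weight
      X.int_one X.int_E X.int_F X.int_EE X.int_FF X.int_EF
  have hval : ∀ x y : ZMod p, x ≠ 0 → y ≠ 0 → 1 ≤ (x / y).val ∧ (x / y).val < p := fun x y hx hy =>
    ⟨Nat.one_le_iff_ne_zero.mpr ((ZMod.val_ne_zero _).mpr (div_ne_zero hx hy)), ZMod.val_lt _⟩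
  obtain ⟨σ, hσ | hσ⟩ := rows_exist (fun i => 2 * X.e i - α) (fun i => 2 * X.f i - γ) h2 hU hV hpair
  · refine ⟨_, _, hval _ _ (hV (σ 0)) (hU (σ 0)), hval _ _ (hV (σ 2)) (hU (σ 2)), Or.inl ?_⟩
    rintro r s ⟨C⟩
    obtain ⟨e1, e2, e3⟩ := hsum r s C
    have adj := C.adjunction
    simp only [hdelta] at adj
    exact numData_of h5 _ _ σ hσ hU hV C.branches C.ne_zero r s e1 e2 e3 C.genus C.quotientGenus
      C.riemann_hurwitz adj
  · refine ⟨_, _, hval _ _ (hU (σ 0)) (hV (σ 0)), hval _ _ (hU (σ 2)) (hV (σ 2)), Or.inr ?_⟩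
    rintro r s ⟨C⟩
    obtain ⟨e1, e2, e3⟩ := hsum r s C
    have adj := C.adjunction
    simp only [hdelta, localDelta_comm (2 * X.e _ - α)] at adj
    rw [mul_comm (r + 1)] at adj
    exact numData_of h5 _ _ σ hσ hV hU C.branches C.ne_zero s r e1 e3 e2 C.genus C.quotientGenus
      C.riemann_hurwitz adj

/-- there are no invariant curves of class `(0, s)` or `(r, 0)` -/
theorem pos_of_curve (h11 : 11 ≤ p) (X : Action p) (r s : ℕ) (hr : r ≤ 3) (hs : s ≤ 3)
    (hne : (r, s) ≠ (0, 0)) (hC : Nonempty (Curve X r s)) : 1 ≤ r ∧ 1 ≤ s := by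
  obtain ⟨t, t', ht, ht', h⟩ := data_exist (by omega) X
  by_contra hcon
  have : (r = 0 ∧ 1 ≤ s) ∨ (1 ≤ r ∧ s = 0) := by
    have : ¬ (r = 0 ∧ s = 0) := fun hh => hne (Prod.ext hh.1 hh.2)
    omega
  rcases this with ⟨rfl, h1⟩ | ⟨h1, rfl⟩
  · rcases h with h | h
    · obtain ⟨D⟩ := h _ _ hC
      exact num_zero_s hp.out h11 ht ht' h1 hs D
    · obtain ⟨D⟩ := h _ _ hC
      exact num_r_zero hp.out h11 ht ht' h1 hs D
  · rcases h with h | h
    · obtain ⟨D⟩ := h _ _ hC
      exact num_r_zero hp.out h11 ht ht' h1 hr D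
    · obtain ⟨D⟩ := h _ _ hC
      exact num_zero_s hp.out h11 ht ht' h1 hr D

/-- there are no two invariant curves of classes `(2, 3)` and `(3, 2)` -/
theorem not_both (h11 : 11 ≤ p) (X : Action p) (c1 : Nonempty (Curve X 2 3))
    (c2 : Nonempty (Curve X 3 2)) : False := by
  obtain ⟨t, t', ht, ht', h⟩ := data_exist (by omega) X
  rcases h with h | h
  · obtain ⟨D⟩ := h _ _ c1
    obtain ⟨D'⟩ := h _ _ c2
    exact num_both hp.out h11 ht ht' D D'
  · obtain ⟨D⟩ := h _ _ c1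
    obtain ⟨D'⟩ := h _ _ c2
    exact num_both hp.out h11 ht ht' D' D

end

end Pool.Agent.H52.FQ
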