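import Pool.Agent.H52.FQ.Model
import Pool.Agent.H52.FQ.Lef
import Pool.Agent.H52.FQ.Main

/-!
# From the model to the classification
-/

namespace Pool.Agent.H52.FQ

open Finset

section Surface

variable {X : Surface}

theorem Surface.arith (C : X.Curve) :
    (X.genus C : ℤ) + X.delta C = ((X.cls C).1 + 1) * ((X.cls C).2 + 1) := by
  have h := X.adjunction C
  simp only [dot, canon, Prod.fst_add, Prod.snd_add] at h
  linarith

/-- every irreducible curve has class `(r, s)` with `r, s ≥ 0` -/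
theorem Surface.cls_nonneg (C : X.Curve) : 0 ≤ (X.cls C).1 ∧ 0 ≤ (X.cls C).2 := by
  have h1 := X.arith C
  have h2 := X.nef C
  have h3 := X.miyaoka C
  simp only [dot, canon] at h2 h3
  have key : ∀ r s : ℤ, (X.genus C : ℤ) + X.delta C = (r + 1) * (s + 1) → 0 ≤ r + s → r < 0 →
      (∀ n : ℤ, X.genus C = 0 → X.delta C = 0 → 0 < n → 2 * (r * s) = -n →
        8 * n + (n - 2) ^ 2 ≤ 3 * (2 * n + 1)) → False := by
    intro r s e1 e2 e3 e4
    have e5 : 0 ≤ (r + 1) * (s + 1) := by rw [← e1]; positivity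
    have e6 : r = -1 := by
      by_contra hne
      have : r + 1 < 0 := by omega
      have := mul_neg_of_neg_of_pos this (show 0 < s + 1 by omega)
      omega
    subst e6
    have e7 : X.genus C = 0 := by
      have : (X.genus C : ℤ) + X.delta C = 0 := by rw [e1]; ring
      omega
    have e8 : X.delta C = 0 := by
      have : (X.genus C : ℤ) + X.delta C = 0 := by rw [e1]; ring
      omega
    have e9 := e4 (2 * s) e7 e8 (by omega) (by ring)
    nlinarith
  constructor
  · by_contra hneg
    exact key _ _ h1 (by linarith) (by omega) fun n a b c d => h3 n a b c (by linarith)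
  · by_contra hneg
    exact key _ _ (by rw [h1]; ring) (by linarith) (by omega : (X.cls C).2 < 0)
      fun n a b c d => h3 n a b c (by linarith)

theorem Surface.cls_pos (C : X.Curve) : 1 ≤ (X.cls C).1 + (X.cls C).2 := by
  obtain ⟨H, hH⟩ := X.ample
  obtain ⟨h1, h2⟩ := X.cls_nonneg C
  by_contra hcon
  have e1 : (X.cls C).1 = 0 := by omega
  have e2 : (X.cls C).2 = 0 := by omega
  have := hH C
  simp [dot, e1, e2] at this

theorem Surface.sum_cls (Z : Multiset X.Curve) :
    0 ≤ (Z.map X.cls).sum.1 ∧ 0 ≤ (Z.map X.cls).sum.2 ∧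
      (Multiset.card Z : ℤ) ≤ (Z.map X.cls).sum.1 + (Z.map X.cls).sum.2 := by
  induction Z using Multiset.induction_on with
  | empty => simp
  | cons C Z ih =>
    obtain ⟨h1, h2⟩ := X.cls_nonneg C
    have h3 := X.cls_pos C
    simp only [Multiset.map_cons, Multiset.sum_cons, Prod.fst_add, Prod.snd_add,
      Multiset.card_cons, Nat.cast_add, Nat.cast_one]
    omega

/-- there is no curve of class `(1, 1)` -/
theorem Surface.cls_ne (C : X.Curve) : X.cls C ≠ (1, 1) := by
  intro h
  have h1 : 0 < X.h 0 canon := by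
    rw [X.effective]
    refine ⟨{C, C}, ?_⟩
    simp [h, canon]
  rw [X.geometricGenus] at h1
  exact lt_irrefl _ h1

theorem Surface.h_two_three : 0 < X.h 0 (2, 3) := by
  have h1 := X.riemannRoch (2, 3)
  have h2 := X.serre (2, 3)
  have h3 : X.h 0 (canon - (2, 3)) = 0 := by
    by_contra hne
    obtain ⟨Z, hZ⟩ := (X.effective _).1 (Nat.pos_of_ne_zero hne)
    have := (X.sum_cls Z).2.1
    rw [hZ] at this
    simp [canon] at this
  rw [h3] at h2
  rw [h2] at h1
  simp only [dot, canon, Prod.fst_sub, Prod.snd_sub] at h1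
  push_cast at h1
  omega

theorem Surface.h_three_two : 0 < X.h 0 (3, 2) := by
  have h1 := X.riemannRoch (3, 2)
  have h2 := X.serre (3, 2)
  have h3 : X.h 0 (canon - (3, 2)) = 0 := by
    by_contra hne
    obtain ⟨Z, hZ⟩ := (X.effective _).1 (Nat.pos_of_ne_zero hne)
    have := (X.sum_cls Z).1
    rw [hZ] at this
    simp [canon] at this
  rw [h3] at h2
  rw [h2] at h1
  simp only [dot, canon, Prod.fst_sub, Prod.snd_sub] at h1
  push_cast at h1
  omega

end Surface

section Cohomology

variable {X : Surface} {p : ℕ} [hp : Fact p.Prime] (g : Automorphism X p)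
include g

/-- `g` acts trivially on `H²(X; ℤ)` -/
theorem Automorphism.phi_id (h2 : 3 ≤ p) : ∀ x, g.phi x = x := by
  have h10 := g.phi_dot (1, 0) (1, 0)
  have h01 := g.phi_dot (0, 1) (0, 1)
  have h11 := g.phi_dot (1, 0) (0, 1)
  have hK := g.phi_canon
  have hx : ∀ x : ℤ × ℤ, g.phi x = x.1 • g.phi (1, 0) + x.2 • g.phi (0, 1) := by
    intro x
    rw [← map_zsmul, ← map_zsmul, ← map_add]
    congr 1
    ext <;> simp
  rw [hx] at hK
  obtain ⟨a, b, hab⟩ : ∃ a b, g.phi (1, 0) = (a, b) := ⟨_, _, rfl⟩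
  obtain ⟨c, d, hcd⟩ : ∃ c d, g.phi (0, 1) = (c, d) := ⟨_, _, rfl⟩
  rw [hab, hcd] at hK h11
  rw [hab] at h10
  rw [hcd] at h01
  simp only [dot, canon, Prod.smul_mk, Prod.mk_add_mk, Prod.mk.injEq, smul_eq_mul] at h10 h01 h11 hK
  obtain ⟨k1, k2⟩ := hK
  have hb : b = 1 - d := by omega
  have hc : c = 1 - a := by omega
  subst hb hc
  have hor : a = 0 ∨ d = 1 := by
    have : a * (1 - d) = 0 := by linarith
    rcases mul_eq_zero.1 this with h | h
    · exact Or.inl h
    · exact Or.inr (by omega)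
  have hor' : a = 1 ∨ d = 0 := by
    have : (1 - a) * d = 0 := by linarith
    rcases mul_eq_zero.1 this with h | h
    · exact Or.inl (by omega)
    · exact Or.inr h
  have hcase : (a = 0 ∧ d = 0) ∨ (a = 1 ∧ d = 1) := by
    rcases hor with h | h
    · rcases hor' with h' | h'
      · omega
      · exact Or.inl ⟨h, h'⟩
    · rcases hor' with h' | h'
      · exact Or.inr ⟨h', h⟩
      · omega
  rcases hcase with ⟨rfl, rfl⟩ | ⟨rfl, rfl⟩
  · exfalso
    have hswap : ∀ x, g.phi x = (x.2, x.1) := by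
      intro x
      rw [hx, hab, hcd]
      ext <;> simp
    have hsq : g.phi^[2] = id := by
      funext x
      simp [hswap]
    have hodd : Odd p := hp.out.odd_of_ne_two (by omega)
    obtain ⟨k, hk⟩ := hodd
    have hpow : ∀ n, n = p → g.phi^[n] = id := by
      rintro _ rfl
      exact g.phi_pow
    have h := hpow (2 * k + 1) hk.symm
    rw [Function.iterate_add, Function.iterate_mul, hsq, Function.iterate_id] at h
    have := congrFun h (1, 0)
    simp [hswap] at this
  · intro x
    rw [hx, hab, hcd]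
    ext <;> simp

theorem Automorphism.fixed_eq (h2 : 3 ≤ p) : g.fixed = ∅ := by
  have h := g.lefschetz
  rw [g.phi_id h2, g.phi_id h2] at h
  have hs := g.smith
  have e1 : ∑ C ∈ g.fixed, X.genus C = 0 := by
    have h1 : (∑ C ∈ g.fixed, (2 - 2 * (X.genus C : ℤ))) =
        2 * (g.fixed.card : ℤ) - 2 * ((∑ C ∈ g.fixed, X.genus C : ℕ) : ℤ) := by
      rw [sum_sub_distrib, sum_const, ← mul_sum]
      push_cast
      simp [mul_comm]
    have h3 : (∑ C ∈ g.fixed, (2 + 2 * X.genus C)) =
        2 * g.fixed.card + 2 * (∑ C ∈ g.fixed, X.genus C) := by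
      rw [sum_add_distrib, sum_const, ← mul_sum]
      simp [mul_comm]
    rw [h1] at h
    rw [h3] at hs
    simp only at h
    omega
  rw [Finset.eq_empty_iff_forall_notMem]
  intro C hC
  have g0 : X.genus C = 0 := Finset.sum_eq_zero_iff.1 e1 C hC
  have d0 := g.fixed_smooth C hC
  have ha := X.arith C
  obtain ⟨h3, h4⟩ := X.cls_nonneg C
  rw [g0, d0] at ha
  have : 0 < ((X.cls C).1 + 1) * ((X.cls C).2 + 1) := by positivity
  simp at ha
  omega

theorem Automorphism.card_point (h2 : 3 ≤ p) :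
    @Fintype.card g.Point g.fintype = 4 := by
  have h := g.lefschetz
  rw [g.phi_id h2, g.phi_id h2, g.fixed_eq h2] at h
  simp at h
  omega

/-- the components of an invariant divisor with less than `p` components are invariant -/
theorem Automorphism.component (Z : Multiset X.Curve) (hZ : Z.map g.act = Z)
    (hc : Multiset.card Z < p) (C : X.Curve) (hC : C ∈ Z) : g.act C = C := by
  classical
  by_contra hne
  have hper : Function.IsPeriodicPt g.act p C := by
    have := congrArg (fun σ : Equiv.Perm X.Curve => σ C) g.act_pow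
    simpa [Function.IsPeriodicPt, Function.IsFixedPt, Equiv.Perm.iterate_eq_pow] using this
  have hmin : Function.minimalPeriod g.act C = p := by
    rcases (Nat.dvd_prime hp.out).1 hper.minimalPeriod_dvd with h | h
    · exact absurd (Function.minimalPeriod_eq_one_iff_isFixedPt.1 h) hne
    · exact h
  have hmem : ∀ k, g.act^[k] C ∈ Z := by
    intro k
    induction k with
    | zero => exact hC
    | succ k ih =>
      rw [Function.iterate_succ_apply', ← hZ]
      exact Multiset.mem_map_of_mem _ ih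
  have hinj := Function.iterate_injOn_Iio_minimalPeriod (f := g.act) (x := C)
  rw [hmin] at hinj
  have h1 : ((range p).image fun k => g.act^[k] C).card = p := by
    rw [card_image_of_injOn, card_range]
    intro i hi j hj hij
    exact hinj (by simpa using hi) (by simpa using hj) hij
  have h2 : ((range p).image fun k => g.act^[k] C).card ≤ Z.toFinset.card := by
    apply card_le_card
    intro D hD
    obtain ⟨k, -, rfl⟩ := mem_image.1 hD
    exact Multiset.mem_toFinset.2 (hmem k)
  have h3 := Multiset.toFinset_card_le Z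
  omega

end Cohomology

section Local

variable {X : Surface} {p : ℕ} [hp : Fact p.Prime]

/-- the relations between the weights at the fixed points -/
theorem LocalData.relations (h7 : 7 ≤ p) {act : Equiv.Perm X.Curve} {Point : Type}
    [Fintype Point] (L : LocalData X p act Point) :
    ∑ i, (L.a i * L.b i)⁻¹ = 0 ∧ ∑ i, L.e i * (L.a i * L.b i)⁻¹ = 0 ∧
      ∑ i, L.f i * (L.a i * L.b i)⁻¹ = 0 ∧ ∑ i, L.e i ^ 2 * (L.a i * L.b i)⁻¹ = 0 ∧
      ∑ i, L.f i ^ 2 * (L.a i * L.b i)⁻¹ = 0 ∧
      ∑ i, L.e i * L.f i * (L.a i * L.b i)⁻¹ = 1 ∧ ∑ i, (L.a i + L.b i) = 0 ∧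
      ∑ i, (7 * (L.a i * L.b i) ^ 2 - (L.a i ^ 2 + L.b i ^ 2) ^ 2) * (L.a i * L.b i)⁻¹ = 0 := by
  refine Lef.lef_relations h7 L.a L.b L.e L.f L.a_ne L.b_ne (zeta p)
    (Complex.isPrimitiveRoot_exp p hp.out.ne_zero) ?_
  intro r s
  refine ⟨fun j => (L.mult 0 (r, s) j : ℤ) - L.mult 1 (r, s) j + L.mult 2 (r, s) j, ?_, ?_, ?_⟩
  · have h := X.riemannRoch (r, s)
    rw [← L.sum_mult, ← L.sum_mult, ← L.sum_mult] at h
    rw [sum_add_distrib, sum_sub_distrib]
    simp only [dot, canon, Prod.fst_sub, Prod.snd_sub] at h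
    push_cast at h
    linarith
  · rintro rfl rfl
    have h1 : ∀ j, L.mult 1 0 j = 0 := by
      have := L.sum_mult 1 0
      rw [X.irregularity] at this
      exact fun j => Finset.sum_eq_zero_iff.1 this j (mem_univ j)
    have h2 : ∀ j, L.mult 2 0 j = 0 := by
      have := L.sum_mult 2 0
      rw [X.serre, sub_zero, X.geometricGenus] at this
      exact fun j => Finset.sum_eq_zero_iff.1 this j (mem_univ j)
    funext j
    have e : (((0 : ℕ) : ℤ), ((0 : ℕ) : ℤ)) = (0 : ℤ × ℤ) := rfl
    rw [e, h1, h2, L.constants]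
    by_cases hj : j = 0
    · subst hj
      simp
    · simp [Pi.single_eq_of_ne hj]
  · have h := L.lefschetz (r, s)
    simp only [Int.cast_natCast] at h
    rw [h]
    refine sum_congr rfl fun j _ => ?_
    push_cast
    ring

/-- the action with its fixed points numbered -/
def LocalData.action (h7 : 7 ≤ p) {act : Equiv.Perm X.Curve} {Point : Type}
    [Fintype Point] (L : LocalData X p act Point) (σ : Fin 4 ≃ Point) : Action p where
  a i := L.a (σ i)
  b i := L.b (σ i)
  e i := L.e (σ i)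
  f i := L.f (σ i)
  a_ne i := L.a_ne _
  b_ne i := L.b_ne _
  k := L.k
  canonical i := L.canonical _
  int_one := by
    rw [Equiv.sum_comp σ fun P => (L.a P * L.b P)⁻¹]
    exact (L.relations h7).1
  int_E := by
    rw [Equiv.sum_comp σ fun P => L.e P * (L.a P * L.b P)⁻¹]
    exact (L.relations h7).2.1
  int_F := by
    rw [Equiv.sum_comp σ fun P => L.f P * (L.a P * L.b P)⁻¹]
    exact (L.relations h7).2.2.1
  int_EE := by
    rw [Equiv.sum_comp σ fun P => L.e P ^ 2 * (L.a P * L.b P)⁻¹]
    exact (L.relations h7).2.2.2.1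
  int_FF := by
    rw [Equiv.sum_comp σ fun P => L.f P ^ 2 * (L.a P * L.b P)⁻¹]
    exact (L.relations h7).2.2.2.2.1
  int_EF := by
    rw [Equiv.sum_comp σ fun P => L.e P * L.f P * (L.a P * L.b P)⁻¹]
    exact (L.relations h7).2.2.2.2.2.1
  todd_three := by
    rw [Equiv.sum_comp σ fun P => (L.a P + L.b P)]
    exact (L.relations h7).2.2.2.2.2.2.1
  todd_four := by
    rw [Equiv.sum_comp σ fun P =>
      (7 * (L.a P * L.b P) ^ 2 - (L.a P ^ 2 + L.b P ^ 2) ^ 2) * (L.a P * L.b P)⁻¹]
    exact (L.relations h7).2.2.2.2.2.2.2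

theorem ord_le {x t : ZMod p} (ht : t ≠ 0) {A : ℕ} (h : A * t = x) : ord x t⁻¹ ≤ A := by
  have : x * t⁻¹ = (A : ZMod p) := by
    rw [← h, mul_assoc, mul_inv_cancel₀ ht, mul_one]
  rw [ord, this, ZMod.val_natCast]
  exact Nat.mod_le _ _

theorem localDelta_le {x y : ZMod p} (l : List (Branch p)) (h : ∀ Q ∈ l, Q.t ≠ 0)
    (h' : ∀ Q ∈ l, Q.A * Q.t = x ∧ Q.B * Q.t = y) :
    localDelta x y (l.map fun Q => Q.t⁻¹) ≤ deltaBound l := by
  induction l with
  | nil => simp [localDelta, deltaBound]
  | cons Q l ih =>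
    have hA := ord_le (h Q (by simp)) (h' Q (by simp)).1
    have hB := ord_le (h Q (by simp)) (h' Q (by simp)).2
    have h1 := ih (fun R hR => h R (by simp [hR])) fun R hR => h' R (by simp [hR])
    simp only [List.map_cons, localDelta, deltaBound, List.map_map]
    refine add_le_add (add_le_add ?_ ?_) h1
    · exact Nat.mul_le_mul (Nat.sub_le_sub_right hA 1) (Nat.sub_le_sub_right hB 1)
    · apply List.sum_le_sum
      intro R hR
      have hA' := ord_le (h R (by simp [hR])) (h' R (by simp [hR])).1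
      have hB' := ord_le (h R (by simp [hR])) (h' R (by simp [hR])).2
      simp only [Function.comp]
      exact Nat.mul_le_mul_left 2 (min_le_min (Nat.mul_le_mul hA hB') (Nat.mul_le_mul hA' hB))

/-- an invariant curve -/
theorem LocalData.curve (h7 : 7 ≤ p) {act : Equiv.Perm X.Curve} {Point : Type}
    [Fintype Point] (L : LocalData X p act Point) (σ : Fin 4 ≃ Point) (C : X.Curve)
    (hC : act C = C) (r s : ℕ) (hr : (X.cls C).1 = r) (hs : (X.cls C).2 = s) :
    Nonempty (Curve (L.action h7 σ) r s) := by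
  obtain ⟨I⟩ := L.invariant C hC
  refine ⟨⟨fun i => (I.branches (σ i)).map fun Q => Q.t⁻¹, ?_, I.c, ?_, X.genus C,
    I.quotientGenus, ?_, ?_⟩⟩
  · intro i u hu
    obtain ⟨Q, hQ, rfl⟩ := List.mem_map.1 hu
    exact inv_ne_zero (I.weight_ne _ Q hQ)
  · intro i
    have := I.equation (σ i)
    rw [hr, hs, Int.cast_natCast, Int.cast_natCast] at this
    exact this
  · have := I.riemannHurwitz
    rw [← Equiv.sum_comp σ] at this
    simpa using this
  · have h1 : ∑ i, localDelta (L.a (σ i)) (L.b (σ i)) ((I.branches (σ i)).map fun Q => Q.t⁻¹) ≤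
        2 * X.delta C := by
      refine le_trans ?_ I.delta_ge
      rw [← Equiv.sum_comp σ]
      refine sum_le_sum fun i _ => localDelta_le _ (I.weight_ne _) fun Q hQ => ?_
      exact ⟨(I.order _ Q hQ).2.2.1, (I.order _ Q hQ).2.2.2⟩
    have h2 := X.arith C
    rw [hr, hs] at h2
    have h3 : X.genus C + X.delta C = (r + 1) * (s + 1) := by exact_mod_cast h2
    change 2 * X.genus C + ∑ i, localDelta (L.a (σ i)) (L.b (σ i))
      ((I.branches (σ i)).map fun Q => Q.t⁻¹) ≤ 2 * ((r + 1) * (s + 1))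
    omega

theorem LocalData.divisor {act : Equiv.Perm X.Curve} {Point : Type} [Fintype Point]
    (L : LocalData X p act Point) (D : ℤ × ℤ) (hD : 0 < X.h 0 D) :
    ∃ Z : Multiset X.Curve, (Z.map X.cls).sum = D ∧ Z.map act = Z := by
  have h := L.sum_mult 0 D
  have : ∃ j, 0 < L.mult 0 D j := by
    by_contra hcon
    push Not at hcon
    have : ∑ j, L.mult 0 D j = 0 := Finset.sum_eq_zero fun j _ => by have := hcon j; omega
    omega
  obtain ⟨j, hj⟩ := this
  exact L.eigensection D j hj

/-- There is no automorphism of prime order `p ≥ 11`. -/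
theorem no_automorphism (h11 : 11 ≤ p) (X : Surface) (g : Automorphism X p) : False := by
  let _ := g.fintype
  have h7 : 7 ≤ p := by omega
  obtain ⟨L⟩ := g.localData (g.phi_id (by omega)) (g.fixed_eq (by omega))
  let σ : Fin 4 ≃ g.Point := (Fintype.equivFinOfCardEq (g.card_point (by omega))).symm
  let cl : X.Curve → ℕ × ℕ := fun C => ((X.cls C).1.toNat, (X.cls C).2.toNat)
  have hcl : ∀ C, (X.cls C).1 = (cl C).1 ∧ (X.cls C).2 = (cl C).2 := fun C =>
    ⟨(Int.toNat_of_nonneg (X.cls_nonneg C).1).symm, (Int.toNat_of_nonneg (X.cls_nonneg C).2).symm⟩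
  have hle : ∀ (Z : Multiset X.Curve) (C : X.Curve), C ∈ Z →
      (X.cls C).1 ≤ (Z.map X.cls).sum.1 ∧ (X.cls C).2 ≤ (Z.map X.cls).sum.2 := by
    intro Z C hC
    obtain ⟨Z', rfl⟩ := Multiset.exists_cons_of_mem hC
    obtain ⟨h1, h2, -⟩ := X.sum_cls Z'
    simp only [Multiset.map_cons, Multiset.sum_cons, Prod.fst_add, Prod.snd_add]
    omega
  have hsum : ∀ Z : Multiset X.Curve, (Z.map X.cls).sum.1 = ((Z.toList.map fun C => (cl C).1).sum : ℕ) ∧
      (Z.map X.cls).sum.2 = ((Z.toList.map fun C => (cl C).2).sum : ℕ) := by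
    intro Z
    have key : ∀ l : List X.Curve, (l.map X.cls).sum.1 = ((l.map fun C => (cl C).1).sum : ℕ) ∧
        (l.map X.cls).sum.2 = ((l.map fun C => (cl C).2).sum : ℕ) := by
      intro l
      induction l with
      | nil => simp
      | cons C l ih =>
        simp only [List.map_cons, List.sum_cons, Prod.fst_add, Prod.snd_add, Nat.cast_add]
        rw [ih.1, ih.2, (hcl C).1, (hcl C).2]
        exact ⟨rfl, rfl⟩
    have h := key Z.toList
    rw [← Multiset.sum_coe, ← Multiset.map_coe, Multiset.coe_toList] at h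
    exact h
  have hinv : ∀ (r s : ℕ) (Z : Multiset X.Curve), r ≤ 3 → s ≤ 3 → (Z.map X.cls).sum = ((r : ℤ), (s : ℤ)) →
      Z.map g.act = Z → ∀ C ∈ Z.toList, Nonempty (Curve (L.action h7 σ) (cl C).1 (cl C).2) ∧
        1 ≤ (cl C).1 ∧ 1 ≤ (cl C).2 := by
    intro r s Z hr hs hZ hZ' C hC
    rw [Multiset.mem_toList] at hC
    have hcard := (X.sum_cls Z).2.2
    rw [hZ] at hcard
    simp only at hcard
    have hact := g.component Z hZ' (by omega) C hC
    have hcv := L.curve h7 σ C hact (cl C).1 (cl C).2 (hcl C).1 (hcl C).2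
    obtain ⟨l1, l2⟩ := hle Z C hC
    rw [hZ, (hcl C).1, (hcl C).2] at *
    simp only at l1 l2
    refine ⟨hcv, pos_of_curve h11 _ _ _ (by omega) (by omega) ?_ hcv⟩
    intro h0
    have h1 := X.cls_pos C
    rw [(hcl C).1, (hcl C).2] at h1
    rw [Prod.mk.injEq] at h0
    omega
  have c1 : Nonempty (Curve (L.action h7 σ) 2 3) := by
    obtain ⟨Z, hZ, hZ'⟩ := L.divisor _ X.h_two_three
    obtain ⟨s1, s2⟩ := hsum Z
    rw [hZ] at s1 s2
    have hi := hinv 2 3 Z (by norm_num) (by norm_num) hZ hZ'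
    obtain ⟨C, hC, hC'⟩ := single_two_three cl Z.toList (fun C hC => (hi C hC).2)
      (fun C _ h => X.cls_ne C (by
        ext
        · rw [(hcl C).1, h]; rfl
        · rw [(hcl C).2, h]; rfl))
      (by simp only at s1; omega) (by simp only at s2; omega)
    have := (hi C hC).1
    rwa [hC'] at this
  have c2 : Nonempty (Curve (L.action h7 σ) 3 2) := by
    obtain ⟨Z, hZ, hZ'⟩ := L.divisor _ X.h_three_two
    obtain ⟨s1, s2⟩ := hsum Z
    rw [hZ] at s1 s2
    have hi := hinv 3 2 Z (by norm_num) (by norm_num) hZ hZ'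
    obtain ⟨C, hC, hC'⟩ := single_three_two cl Z.toList (fun C hC => (hi C hC).2)
      (fun C _ h => X.cls_ne C (by
        ext
        · rw [(hcl C).1, h]; rfl
        · rw [(hcl C).2, h]; rfl))
      (by simp only at s1; omega) (by simp only at s2; omega)
    have := (hi C hC).1
    rwa [hC'] at this
  exact not_both h11 _ c1 c2

end Local

end Pool.Agent.H52.FQ
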