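import Pool.Agent.H52.FQ.Alg
import Pool.Agent.H52.FQ.NumDefs

/-!
# From curves to numerical data
-/

namespace Pool.Agent.H52.FQ

open Finset

theorem localDelta_comm {p : ℕ} (x y : ZMod p) (l : List (ZMod p)) :
    localDelta x y l = localDelta y x l := by
  induction l with
  | nil => rfl
  | cons u l ih =>
    unfold localDelta
    rw [ih, mul_comm (ord x u - 1)]
    congr 3
    refine List.map_congr_left fun v _ => ?_
    rw [min_comm, mul_comm (ord x v), mul_comm (ord x u)]

theorem ord_ratio {p : ℕ} [NeZero p] {x y τ : ZMod p} (h : y = τ * x) (u : ZMod p) :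
    ord y u = τ.val * ord x u % p := by
  unfold ord
  rw [h, mul_assoc, ZMod.val_mul]

theorem rowCost_map {p : ℕ} [NeZero p] {x y τ : ZMod p} (h : y = τ * x) (l : List (ZMod p)) :
    rowCost p (l.map fun u => (ord x u, τ.val)) = localDelta x y l := by
  induction l with
  | nil => rfl
  | cons u l ih =>
    rw [List.map_cons]
    unfold rowCost localDelta
    rw [ih, List.map_map]
    congr 1
    congr 1
    · unfold cost1
      rw [ord_ratio h]
    · congr 1
      refine List.map_congr_left fun v _ => ?_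
      simp only [Function.comp, cost2, if_pos]
      rw [ord_ratio h, ord_ratio h]

theorem rowCost_cons (p : ℕ) (x : ℕ × ℕ) (l : List (ℕ × ℕ)) :
    rowCost p (x :: l) = cost1 p x + (l.map (cost2 p x)).sum + rowCost p l := rfl

theorem rowCost_append {p : ℕ} (L L' : List (ℕ × ℕ)) (h : ∀ x ∈ L, ∀ y ∈ L', x.2 ≠ y.2) :
    rowCost p (L ++ L') = rowCost p L + rowCost p L' := by
  induction L with
  | nil => simp [rowCost]
  | cons x L ih =>
    rw [List.cons_append, rowCost_cons, rowCost_cons,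
      ih fun z hz => h z (List.mem_cons_of_mem _ hz), List.map_append, List.sum_append]
    have h0 : (L'.map (cost2 p x)).sum = 0 := by
      apply List.sum_eq_zero
      intro z hz
      obtain ⟨y, hy, rfl⟩ := List.mem_map.mp hz
      unfold cost2
      rw [if_neg (h x List.mem_cons_self y hy)]
    rw [h0]
    ring

theorem cast_sum_ord {p : ℕ} [NeZero p] (x : ZMod p) (l : List (ZMod p)) :
    (((l.map fun u => ord x u).sum : ℕ) : ZMod p) = x * l.sum := by
  induction l with
  | nil => simp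
  | cons u l ih =>
    rw [List.map_cons, List.sum_cons, Nat.cast_add, ih, List.sum_cons, ord, ZMod.natCast_val,
      ZMod.cast_id]
    ring

section
variable {p : ℕ} [hp : Fact p.Prime]

/-- The numerical data of a curve, if the rows are in the direction of `U`. -/
theorem numData_of (h5 : 5 ≤ p) (U V : Fin 4 → ZMod p) (σ : Equiv.Perm (Fin 4))
    (hR : Rows U V σ) (hU : ∀ i, U i ≠ 0) (hV : ∀ i, V i ≠ 0) (br : Fin 4 → List (ZMod p))
    (hne : ∀ i, ∀ u ∈ br i, u ≠ 0) (r s : ℕ) (hS : ∑ i, (br i).sum = 0)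
    (hUS : ∑ i, U i * (br i).sum = -2 * s) (hVS : ∑ i, V i * (br i).sum = -2 * r)
    (gen gen' : ℕ)
    (rh : 2 * gen + 2 * p = 2 + 2 * p * gen' + (p - 1) * ∑ i, (br i).length)
    (adj : 2 * gen + ∑ i, localDelta (U i) (V i) (br i) ≤ 2 * ((r + 1) * (s + 1))) :
    Nonempty (NumData p r s (V (σ 0) / U (σ 0)).val (V (σ 2) / U (σ 2)).val) := by
  have h2 : (2 : ZMod p) ≠ 0 := by
    intro h
    have : ((2 : ℕ) : ZMod p) = 0 := by exact_mod_cast h
    rw [ZMod.natCast_eq_zero_iff] at this
    exact absurd (Nat.le_of_dvd (by norm_num) this) (by omega)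
  obtain ⟨r1, r2, r3, r4, r5⟩ := hR
  have hperm : ∀ g : Fin 4 → ZMod p, ∑ i, g i = g (σ 0) + g (σ 1) + g (σ 2) + g (σ 3) := by
    intro g
    rw [← Equiv.sum_comp σ, Fin.sum_univ_four]
  have hpermN : ∀ g : Fin 4 → ℕ, ∑ i, g i = g (σ 0) + g (σ 1) + g (σ 2) + g (σ 3) := by
    intro g
    rw [← Equiv.sum_comp σ, Fin.sum_univ_four]
  rw [hperm] at hS hUS hVS
  rw [hpermN] at rh adj
  set t : ZMod p := V (σ 0) / U (σ 0) with ht
  set t' : ZMod p := V (σ 2) / U (σ 2) with ht'
  have q0 : V (σ 0) = t * U (σ 0) := by rw [ht, div_mul_cancel₀ _ (hU _)]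
  have q1 : V (σ 1) = -t * U (σ 1) := by rw [r4, q0, r1]; ring
  have q2 : V (σ 2) = t' * U (σ 2) := by rw [ht', div_mul_cancel₀ _ (hU _)]
  have q3 : V (σ 3) = -t' * U (σ 3) := by rw [r5, q2, r3, r2]; ring
  have tne : t ≠ 0 := div_ne_zero (hV _) (hU _)
  have tne' : t' ≠ 0 := div_ne_zero (hV _) (hU _)
  have hneg : ∀ z : ZMod p, z ≠ 0 → (-z).val = p - z.val := by
    intro z hz
    have : NeZero z := ⟨hz⟩
    exact ZMod.val_neg_of_ne_zero z
  have hodd : ∀ z : ZMod p, z.val ≠ p - z.val := by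
    intro z h
    have hz := ZMod.val_lt z
    have h' : p = 2 * z.val := by omega
    have h3 : 2 ∣ p := ⟨_, h'⟩
    have := (Nat.prime_dvd_prime_iff_eq Nat.prime_two hp.out).mp h3
    omega
  have hpos : ∀ i, ∀ u ∈ br i, 1 ≤ ord (U i) u ∧ ord (U i) u < p := by
    intro i u hu
    have : U i * u ≠ 0 := mul_ne_zero (hU i) (hne i u hu)
    exact ⟨Nat.one_le_iff_ne_zero.mpr ((ZMod.val_ne_zero _).mpr this), ZMod.val_lt _⟩
  -- rows
  have key : ∀ (i j : Fin 4) (τ : ZMod p), τ ≠ 0 → V i = τ * U i → V j = -τ * U j →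
      (rowCost p ((br i).map (fun u => (ord (U i) u, τ.val)) ++
          (br j).map (fun u => (ord (U j) u, p - τ.val))) =
        localDelta (U i) (V i) (br i) + localDelta (U j) (V j) (br j)) ∧
      (((rowSum ((br i).map (fun u => (ord (U i) u, τ.val)) ++
          (br j).map (fun u => (ord (U j) u, p - τ.val))) : ℕ) : ZMod p) =
        U i * (br i).sum + U j * (br j).sum) ∧
      (((rowVal p ((br i).map (fun u => (ord (U i) u, τ.val)) ++
          (br j).map (fun u => (ord (U j) u, p - τ.val))) : ℕ) : ZMod p) =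
        V i * (br i).sum + V j * (br j).sum) ∧
      (∀ x ∈ (br i).map (fun u => (ord (U i) u, τ.val)) ++
          (br j).map (fun u => (ord (U j) u, p - τ.val)),
        1 ≤ x.1 ∧ x.1 < p ∧ (x.2 = τ.val ∨ x.2 = p - τ.val)) := by
    intro i j τ hτ hi hj
    refine ⟨?_, ?_, ?_, ?_⟩
    · rw [rowCost_append, rowCost_map hi, ← hneg τ hτ, rowCost_map hj]
      intro x hx y hy
      obtain ⟨u, -, rfl⟩ := List.mem_map.mp hx
      obtain ⟨v, -, rfl⟩ := List.mem_map.mp hy
      exact hodd τ
    · unfold rowSum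
      rw [List.map_append, List.sum_append, Nat.cast_add, List.map_map, List.map_map]
      rw [← cast_sum_ord, ← cast_sum_ord]
      rfl
    · unfold rowVal
      rw [List.map_append, List.sum_append, Nat.cast_add, List.map_map, List.map_map]
      rw [← cast_sum_ord, ← cast_sum_ord]
      congr 3
      · refine List.map_congr_left fun u _ => ?_
        rw [ord_ratio hi]
        rfl
      · refine List.map_congr_left fun u _ => ?_
        rw [ord_ratio hj, hneg τ hτ]
        rfl
    · intro x hx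
      rw [List.mem_append] at hx
      rcases hx with hx | hx
      · obtain ⟨u, hu, rfl⟩ := List.mem_map.mp hx
        exact ⟨(hpos i u hu).1, (hpos i u hu).2, Or.inl rfl⟩
      · obtain ⟨u, hu, rfl⟩ := List.mem_map.mp hx
        exact ⟨(hpos j u hu).1, (hpos j u hu).2, Or.inr rfl⟩
  obtain ⟨k1, k2, k3, k4⟩ := key (σ 0) (σ 1) t tne q0 q1
  obtain ⟨l1, l2, l3, l4⟩ := key (σ 2) (σ 3) t' tne' q2 q3
  have s1 : U (σ 0) * (br (σ 0)).sum + U (σ 1) * (br (σ 1)).sum = -s := by
    have : 2 * (U (σ 0) * (br (σ 0)).sum + U (σ 1) * (br (σ 1)).sum + s) = 0 := by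
      rw [r1, r2, r3] at hUS
      rw [r1]
      linear_combination hUS + U (σ 0) * hS
    linear_combination (mul_eq_zero.mp this).resolve_left h2
  have s2 : U (σ 2) * (br (σ 2)).sum + U (σ 3) * (br (σ 3)).sum = -s := by
    have : 2 * (U (σ 2) * (br (σ 2)).sum + U (σ 3) * (br (σ 3)).sum + s) = 0 := by
      rw [r1, r2, r3] at hUS
      rw [r2, r3]
      linear_combination hUS - U (σ 0) * hS
    linear_combination (mul_eq_zero.mp this).resolve_left h2
  refine ⟨⟨_, _, k4, l4, ?_, ?_, ?_, gen, gen', ?_, ?_⟩⟩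
  · rw [← Nat.dvd_iff_mod_eq_zero, ← ZMod.natCast_eq_zero_iff, Nat.cast_add, k2, s1]
    ring
  · rw [← Nat.dvd_iff_mod_eq_zero, ← ZMod.natCast_eq_zero_iff, Nat.cast_add, l2, s2]
    ring
  · rw [← Nat.dvd_iff_mod_eq_zero, ← ZMod.natCast_eq_zero_iff]
    push_cast
    rw [k3, l3]
    linear_combination hVS
  · simp only [List.length_append, List.length_map]
    rw [rh]
    ring
  · rw [k1, l1]
    linarith

end

end Pool.Agent.H52.FQ
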