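import Mathlib

/-!
# Automorphisms of prime order of a surface homeomorphic to `S² × S²`: the data

`X` is a compact complex surface homeomorphic to `S² × S²` which is not a Hirzebruch surface. Then
`X` is minimal of general type with `p_g = q = 0` and `Pic X = H²(X; ℤ) = ℤE ⊕ ℤF`, `E² = F² = 0`,
`EF = 1`, `K = 2(E + F)`; the class `rE + sF` is written `(r, s)`. `g` is an automorphism of `X` of
prime order `p ≥ 7`.
-/

namespace Pool.Agent.H52.FQ

open Finset

/-- The fixed point data of `g`: `g` acts trivially on `H²(X; ℤ)` and has exactly four fixed points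
`P i`; the fields are the localisation formula in equivariant cohomology modulo `p` and the terms of
degree one and two of the holomorphic Lefschetz formula
`∑ 1/((1 - ζ^{a i}) (1 - ζ^{b i})) = 1` modulo `p`. -/
structure Action (p : ℕ) where
  /-- the weights of `g` on the cotangent space of `X` at the fixed points -/
  a : Fin 4 → ZMod p
  b : Fin 4 → ZMod p
  /-- the weights of the linearised line bundles `E` and `F` at the fixed points -/
  e : Fin 4 → ZMod p
  f : Fin 4 → ZMod p
  a_ne : ∀ i, a i ≠ 0
  b_ne : ∀ i, b i ≠ 0
  /-- `K = 2(E + F)`, up to a character `k` -/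
  k : ZMod p
  canonical : ∀ i, a i + b i = 2 * (e i + f i) + k
  int_one : ∑ i, (a i * b i)⁻¹ = 0
  int_E : ∑ i, e i * (a i * b i)⁻¹ = 0
  int_F : ∑ i, f i * (a i * b i)⁻¹ = 0
  int_EE : ∑ i, e i ^ 2 * (a i * b i)⁻¹ = 0
  int_FF : ∑ i, f i ^ 2 * (a i * b i)⁻¹ = 0
  int_EF : ∑ i, e i * f i * (a i * b i)⁻¹ = 1
  todd_three : ∑ i, (a i + b i) = 0
  todd_four : ∑ i, (7 * (a i * b i) ^ 2 - (a i ^ 2 + b i ^ 2) ^ 2) * (a i * b i)⁻¹ = 0

/-- The least positive residue of `x * u`: for a fixed point of the normalisation of an invariant
curve where `g` is `z ↦ ζ^(1/u) z`, and a coordinate of weight `x` at the image point, the order of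
this coordinate on the branch is congruent to `x * u` modulo `p`, hence at least `ord x u`. -/
def ord {p : ℕ} (x u : ZMod p) : ℕ := (x * u).val

/-- Twice the lower bound for the delta invariant of the germ at a fixed point with cotangent
weights `x`, `y` consisting of the branches with parameters `u ∈ l`: `(A - 1) (B - 1)` for every
branch and twice `min (A B') (A' B)` for every pair of branches. -/
def localDelta {p : ℕ} (x y : ZMod p) : List (ZMod p) → ℕ
  | [] => 0
  | u :: l => (ord x u - 1) * (ord y u - 1) +
      (l.map fun v => 2 * min (ord x u * ord y v) (ord x v * ord y u)).sum + localDelta x y l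

/-- An irreducible `g`-invariant curve `C` of class `(r, s)`, with normalisation `C'`. -/
structure Curve {p : ℕ} (X : Action p) (r s : ℕ) where
  /-- for every fixed point `P i`, the list of the `u` such that `g` is `z ↦ ζ^(1/u) z` at a fixed
  point of `g` on `C'` over `P i` -/
  branches : Fin 4 → List (ZMod p)
  ne_zero : ∀ i, ∀ u ∈ branches i, u ≠ 0
  /-- the weight of a local equation of `C` at `P i` is `a i * b i * ∑ u`; an equation of `C` is an
  eigensection of `rE + sF`, of weight `c` -/
  c : ZMod p
  weight : ∀ i, X.a i * X.b i * (branches i).sum + (r * X.e i + s * X.f i) = c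
  /-- the genus of `C'` and of `C' / g` -/
  genus : ℕ
  quotientGenus : ℕ
  riemann_hurwitz : 2 * genus + 2 * p =
    2 + 2 * p * quotientGenus + (p - 1) * ∑ i, (branches i).length
  /-- adjunction: the arithmetic genus of `C` is `(r + 1) (s + 1)`, since `K = 2(E + F)` -/
  adjunction : 2 * genus + ∑ i, localDelta (X.a i) (X.b i) (branches i) ≤ 2 * ((r + 1) * (s + 1))

end Pool.Agent.H52.FQ
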