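import Mathlib

/-!
# The finite check

A fixed point of `g` on the normalisation of an invariant curve is recorded by the pair `(A, t)`,
where `A` is the order (the least positive residue) in the direction of the row and `t * A % p` the
order in the other direction.
-/

namespace Pool.Agent.H52.FQ

/-- the contribution of one branch -/
def cost1 (p : ℕ) (x : ℕ × ℕ) : ℕ := (x.1 - 1) * (x.2 * x.1 % p - 1)

/-- the contribution of two branches -/
def cost2 (p : ℕ) (x y : ℕ × ℕ) : ℕ :=
  if x.2 = y.2 then 2 * min (x.1 * (y.2 * y.1 % p)) (y.1 * (x.2 * x.1 % p)) else 0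

def rowCost (p : ℕ) : List (ℕ × ℕ) → ℕ
  | [] => 0
  | x :: l => cost1 p x + (l.map (cost2 p x)).sum + rowCost p l

def rowSum (R : List (ℕ × ℕ)) : ℕ := (R.map Prod.fst).sum

def rowVal (p : ℕ) (R : List (ℕ × ℕ)) : ℕ := (R.map fun x => x.2 * x.1 % p).sum

def rows1 (p s t B : ℕ) : List (List (ℕ × ℕ)) :=
  [t, p - t].filterMap fun t1 =>
    if rowCost p [(p - s, t1)] ≤ B then some [(p - s, t1)] else none

def rows2 (p s t B : ℕ) : List (List (ℕ × ℕ)) :=
  (List.range p).flatMap fun A => [t, p - t].flatMap fun t1 =>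
    if cost1 p (A, t1) ≤ B then
      [t, p - t].filterMap fun t2 =>
        let R := [(A, t1), ((2 * p - s - A) % p, t2)]
        if rowCost p R ≤ B ∧ A ≠ 0 ∧ (2 * p - s - A) % p ≠ 0 then some R else none
    else []

def rows3 (p s t B : ℕ) : List (List (ℕ × ℕ)) :=
  (List.range p).flatMap fun A => [t, p - t].flatMap fun t1 =>
    if cost1 p (A, t1) ≤ B ∧ A ≠ 0 then
      (List.range p).flatMap fun A' => [t, p - t].flatMap fun t2 =>
        if cost1 p (A', t2) ≤ B ∧ A' ≠ 0 then
          [t, p - t].filterMap fun t3 =>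
            let R := [(A, t1), (A', t2), ((3 * p - s - A - A') % p, t3)]
            if rowCost p R ≤ B ∧ (3 * p - s - A - A') % p ≠ 0 then some R else none
        else []
    else []

/-- two rows fit together -/
def fit (p r K : ℕ) (L L' : List (List (ℕ × ℕ))) : Bool :=
  L.any fun R => L'.any fun R' =>
    decide ((rowVal p R + rowVal p R' + 2 * r) % p = 0 ∧ rowCost p R + rowCost p R' ≤ K)

/-- a curve of class `(r, s)` is numerically possible -/
def adm (p r s K t t' : ℕ) : Bool :=
  fit p r K (rows1 p s t K) (rows1 p s t' K) ||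
  (decide (p - 1 ≤ K) && (
    fit p r (K - (p - 1)) (rows1 p s t (K - (p - 1))) (rows2 p s t' (K - (p - 1))) ||
    fit p r (K - (p - 1)) (rows2 p s t (K - (p - 1))) (rows1 p s t' (K - (p - 1))))) ||
  (decide (2 * (p - 1) ≤ K) && (
    fit p r (K - 2 * (p - 1)) (rows1 p s t (K - 2 * (p - 1))) (rows3 p s t' (K - 2 * (p - 1))) ||
    fit p r (K - 2 * (p - 1)) (rows2 p s t (K - 2 * (p - 1))) (rows2 p s t' (K - 2 * (p - 1))) ||
    fit p r (K - 2 * (p - 1)) (rows3 p s t (K - 2 * (p - 1))) (rows1 p s t' (K - 2 * (p - 1)))))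

def check (p : ℕ) : Bool :=
  (List.range ((p + 1) / 2)).all fun t => (List.range ((p + 1) / 2)).all fun t' =>
    t == 0 || t' == 0 || !(adm p 2 3 24 t t' && adm p 3 2 24 t t')


end Pool.Agent.H52.FQ
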