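import Mathlib

/-!
# Automorphisms of prime order of a surface homeomorphic to `S² × S²`: the model

`X` is a compact complex surface homeomorphic to `S² × S²` which is not a Hirzebruch surface. Then
`X` is a minimal projective surface of general type with `p_g = q = 0`, and
`Pic X = H²(X; ℤ) = ℤE ⊕ ℤF` with `E² = F² = 0`, `EF = 1`, `K = 2(E + F)`. The class `rE + sF` is
written `(r, s)`. `g` is an automorphism of `X` of odd prime order `p`.
-/

namespace Pool.Agent.H52.FQ

open Finset

/-- the intersection form on `H²(X; ℤ)` -/
def dot (x y : ℤ × ℤ) : ℤ := x.1 * y.2 + x.2 * y.1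

/-- the canonical class `2(E + F)` -/
def canon : ℤ × ℤ := (2, 2)

/-- Numerical data of `X`. -/
structure Surface where
  /-- the irreducible curves of `X` -/
  Curve : Type
  /-- the class of a curve -/
  cls : Curve → ℤ × ℤ
  /-- the genus of the normalisation of a curve -/
  genus : Curve → ℕ
  /-- the sum of the delta invariants of the points of a curve; it is zero if the curve is smooth -/
  delta : Curve → ℕ
  /-- the arithmetic genus is given by the adjunction formula -/
  adjunction : ∀ C, 2 * ((genus C : ℤ) + delta C) - 2 = dot (cls C) (cls C + canon)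
  /-- the canonical class is nef -/
  nef : ∀ C, 0 ≤ dot canon (cls C)
  /-- `X` is projective -/
  ample : ∃ H, ∀ C, 0 < dot H (cls C)
  /-- Miyaoka's inequality `K_Y² ≤ 3 e_orb(Y)` for the surface `Y` obtained from `X` by contracting a
  smooth rational curve with self-intersection `-n`: here `K_Y² = 8 + (n - 2)² / n` and
  `e_orb(Y) = 2 + 1 / n` -/
  miyaoka : ∀ C, ∀ n : ℤ, genus C = 0 → delta C = 0 → 0 < n → dot (cls C) (cls C) = -n →
    8 * n + (n - 2) ^ 2 ≤ 3 * (2 * n + 1)
  /-- the dimension of `H^i(X, L)`, for the line bundle `L` of class `D` -/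
  h : Fin 3 → ℤ × ℤ → ℕ
  /-- the Riemann-Roch theorem, with `χ(X, O) = 1` -/
  riemannRoch : ∀ D, 2 * ((h 0 D : ℤ) - h 1 D + h 2 D) = dot D (D - canon) + 2
  /-- Serre duality -/
  serre : ∀ D, h 2 D = h 0 (canon - D)
  /-- `p_g = 0` -/
  geometricGenus : h 0 canon = 0
  /-- `q = 0` -/
  irregularity : h 1 0 = 0
  /-- `L` has a section different from zero if and only if its class is the class of an effective
  divisor, that is, a finite formal sum of irreducible curves -/
  effective : ∀ D, 0 < h 0 D ↔ ∃ Z : Multiset Curve, (Z.map cls).sum = D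

/-- A fixed point `Q` of `g` on the normalisation `C'` of an invariant curve `C` not fixed
pointwise, over the fixed point `P` of `g` on `X`. -/
structure Branch (p : ℕ) where
  /-- the weight of `g` on the cotangent space of `C'` at `Q` -/
  t : ZMod p
  /-- the orders at `Q` of the two coordinates at `P` in which `g` is diagonal (if a coordinate is
  zero on the branch, any positive integer in the residue class below) -/
  A : ℕ
  B : ℕ

/-- Twice the lower bound for the delta invariant of a germ with the given branches:
`(A - 1) (B - 1)` for every branch and twice `min (A B') (A' B)` for every pair of branches. -/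
def deltaBound {p : ℕ} : List (Branch p) → ℕ
  | [] => 0
  | Q :: l => (Q.A - 1) * (Q.B - 1) + (l.map fun R => 2 * min (Q.A * R.B) (R.A * Q.B)).sum +
      deltaBound l

/-- The data of a `g`-invariant irreducible curve `C` of class `D`, with normalisation `C'` of genus
`gen`, and with delta invariant `del`. The isolated fixed points of `g` are the elements of `Point`;
`a`, `b` are the weights on the cotangent spaces, `e` and `f` the weights of `E` and `F`. -/
structure Invariant {p : ℕ} {Point : Type} [Fintype Point] (a b e f : Point → ZMod p) (D : ℤ × ℤ)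
    (gen del : ℕ) where
  /-- the fixed points of `g` on `C'` over a fixed point on `X` -/
  branches : Point → List (Branch p)
  weight_ne : ∀ P, ∀ Q ∈ branches P, Q.t ≠ 0
  /-- a coordinate of weight `a P` has an order `A` with `A t = a P` -/
  order : ∀ P, ∀ Q ∈ branches P, 0 < Q.A ∧ 0 < Q.B ∧ Q.A * Q.t = a P ∧ Q.B * Q.t = b P
  /-- an equation of the branch has weight `a b / t`, an equation of `C` is an eigensection of the
  line bundle of class `D`, of weight `c` -/
  c : ZMod p
  equation : ∀ P, a P * b P * ((branches P).map fun Q => Q.t⁻¹).sum +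
    (D.1 * e P + D.2 * f P) = c
  /-- the genus of `C' / g`, and the Riemann-Hurwitz formula -/
  quotientGenus : ℕ
  riemannHurwitz : 2 * gen + 2 * p =
    2 + 2 * p * quotientGenus + (p - 1) * ∑ P, (branches P).length
  delta_ge : ∑ P, deltaBound (branches P) ≤ 2 * del

/-- `ζ = exp (2πi/p)` -/
noncomputable def zeta (p : ℕ) : ℂ := Complex.exp (2 * Real.pi * Complex.I / p)

/-- The local data of `g`, in the case that `g` acts trivially on `H²(X; ℤ)` and has only isolated
fixed points. The line bundles are linearised: `g` acts on them with `g ^ p = 1`. The number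
`x : ZMod p` is called the weight of an eigenspace with the eigenvalue `ζ ^ x`. -/
structure LocalData (X : Surface) (p : ℕ) [Fact p.Prime] (act : Equiv.Perm X.Curve) (Point : Type)
    [Fintype Point] where
  /-- the weights on the cotangent space at a fixed point -/
  a : Point → ZMod p
  b : Point → ZMod p
  /-- the weights of the line bundles `E` and `F` at a fixed point -/
  e : Point → ZMod p
  f : Point → ZMod p
  a_ne : ∀ P, a P ≠ 0
  b_ne : ∀ P, b P ≠ 0
  /-- `K = 2(E + F)`, up to a character `k` -/
  k : ZMod p
  canonical : ∀ P, a P + b P = 2 * (e P + f P) + k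
  /-- the multiplicity of the weight `j` in `H^i(X, L)`, for the line bundle `L` of class `D` -/
  mult : Fin 3 → ℤ × ℤ → ZMod p → ℕ
  sum_mult : ∀ i D, ∑ j, mult i D j = X.h i D
  /-- `g` acts trivially on the constants -/
  constants : mult 0 0 = Pi.single 0 1
  /-- the holomorphic Lefschetz formula -/
  lefschetz : ∀ D : ℤ × ℤ, ∑ P, zeta p ^ (D.1 * e P + D.2 * f P).val /
      ((1 - zeta p ^ (a P).val) * (1 - zeta p ^ (b P).val)) =
    ∑ j, ((mult 0 D j : ℂ) - mult 1 D j + mult 2 D j) * zeta p ^ j.val
  /-- the divisor of an eigensection is invariant -/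
  eigensection : ∀ D j, 0 < mult 0 D j → ∃ Z : Multiset X.Curve, (Z.map X.cls).sum = D ∧
    Z.map act = Z
  invariant : ∀ C, act C = C → Nonempty (Invariant a b e f (X.cls C) (X.genus C) (X.delta C))

/-- Numerical data of an automorphism `g` of `X` of odd prime order `p`. -/
structure Automorphism (X : Surface) (p : ℕ) [Fact p.Prime] where
  /-- the action on the set of irreducible curves -/
  act : Equiv.Perm X.Curve
  act_pow : act ^ p = 1
  /-- the action on `H²(X; ℤ)` -/
  phi : ℤ × ℤ →+ ℤ × ℤ
  phi_pow : phi^[p] = id
  phi_dot : ∀ x y, dot (phi x) (phi y) = dot x y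
  phi_canon : phi canon = canon
  cls_act : ∀ C, X.cls (act C) = phi (X.cls C)
  /-- the isolated fixed points -/
  Point : Type
  fintype : Fintype Point
  /-- the curves fixed pointwise; the fixed point set is smooth -/
  fixed : Finset X.Curve
  fixed_smooth : ∀ C ∈ fixed, X.delta C = 0
  /-- the Lefschetz fixed point formula -/
  lefschetz : (Fintype.card Point : ℤ) + ∑ C ∈ fixed, (2 - 2 * (X.genus C : ℤ)) =
    2 + ((phi (1, 0)).1 + (phi (0, 1)).2)
  /-- Smith's inequality for the Betti numbers modulo `p` -/
  smith : Fintype.card Point + ∑ C ∈ fixed, (2 + 2 * X.genus C) ≤ 4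
  localData : (∀ x, phi x = x) → fixed = ∅ → Nonempty (LocalData X p act Point)

end Pool.Agent.H52.FQ
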