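import Pool.Agent.H52.FQ.Model

/-!
# The model has an instance for `p = 7`

The fixed point data are those of a linear automorphism of `ℙ¹ × ℙ¹`; the multiplicities of the
weights are chosen as simply as possible.
-/

namespace Pool.Agent.H52.FQ.Seven

open Finset

instance fact7 : Fact (Nat.Prime 7) := ⟨by norm_num⟩

/-- the classes of the curves -/
def cls : Fin 9 → ℤ × ℤ :=
  ![(0, 3), (4, 0), (1, 2), (1, 3), (3, 1), (2, 3), (3, 2), (3, 3), (4, 2)]

/-- the genera of the normalisations -/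
def gen : Fin 9 → ℕ := ![3, 0, 6, 6, 6, 6, 0, 3, 3]

/-- the delta invariants -/
def del : Fin 9 → ℕ := ![1, 5, 0, 2, 2, 6, 12, 13, 12]

/-- the class of an effective divisor -/
def Eff (D : ℤ × ℤ) : Prop := ∃ Z : Multiset (Fin 9), (Z.map cls).sum = D

theorem sum_cls (Z : Multiset (Fin 9)) : (Z.map cls).sum = ∑ i, Z.count i • cls i := by
  classical
  rw [Finset.sum_multiset_map_count]
  refine Finset.sum_subset (Finset.subset_univ _) fun i _ hi => ?_
  rw [Multiset.mem_toFinset] at hi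
  rw [Multiset.count_eq_zero_of_notMem hi, zero_smul]

theorem not_eff_canon : ¬ Eff canon := by
  rintro ⟨Z, hZ⟩
  rw [sum_cls] at hZ
  have h1 : ∑ i, (Z.count i : ℤ) * (cls i).1 = 2 := by
    have := congrArg Prod.fst hZ
    rw [Prod.fst_sum] at this
    simpa [canon] using this
  have h2 : ∑ i, (Z.count i : ℤ) * (cls i).2 = 2 := by
    have := congrArg Prod.snd hZ
    rw [Prod.snd_sum] at this
    simpa [canon] using this
  simp [Fin.sum_univ_succ, cls] at h1 h2
  have c0 : Z.count 0 = 0 := by omega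
  have c1 : Z.count 1 = 0 := by omega
  have c3 : Z.count 3 = 0 := by omega
  have c4 : Z.count 4 = 0 := by omega
  have c5 : Z.count 5 = 0 := by omega
  have c6 : Z.count 6 = 0 := by omega
  have c7 : Z.count 7 = 0 := by omega
  have c8 : Z.count 8 = 0 := by omega
  omega

theorem Eff.zero : Eff 0 := ⟨0, by simp⟩

theorem Eff.add {D D' : ℤ × ℤ} (h : Eff D) (h' : Eff D') : Eff (D + D') := by
  obtain ⟨Z, rfl⟩ := h
  obtain ⟨Z', rfl⟩ := h'
  exact ⟨Z + Z', by rw [Multiset.map_add, Multiset.sum_add]⟩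

theorem Eff.curve (i : Fin 9) : Eff (cls i) := ⟨{i}, by simp⟩

theorem Eff.mul {D : ℤ × ℤ} (h : Eff D) (n : ℕ) : Eff (n • D) := by
  induction n with
  | zero => rw [zero_smul]; exact Eff.zero
  | succ n ih => rw [succ_nsmul]; exact ih.add h

theorem Eff.mk {D : ℤ × ℤ} (r s : ℤ) (h : Eff (r, s)) (n m : ℕ) (h1 : D.1 = r + 4 * n)
    (h2 : D.2 = s + 3 * m) : Eff D := by
  have h3 := (h.add ((Eff.curve 1).mul n)).add ((Eff.curve 0).mul m)
  have h4 : (r, s) + n • cls 1 + m • cls 0 = D := by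
    ext
    · simp [cls]; rw [h1]; ring
    · simp [cls]; rw [h2]; ring
  rwa [h4] at h3

theorem eff_of_ge {D : ℤ × ℤ} (h1 : 2 ≤ D.1) (h2 : 2 ≤ D.2) (h : D ≠ canon) : Eff D := by
  have hb : ∀ r s : ℤ, (2 ≤ r ∧ r ≤ 5) → (2 ≤ s ∧ s ≤ 4) → (r, s) ≠ canon → Eff (r, s) := by
    rintro r s ⟨hr, hr'⟩ ⟨hs, hs'⟩ hne
    have c := Eff.curve
    have cases : (r = 2 ∨ r = 3 ∨ r = 4 ∨ r = 5) ∧ (s = 2 ∨ s = 3 ∨ s = 4) := by omega
    obtain ⟨rfl | rfl | rfl | rfl, rfl | rfl | rfl⟩ := cases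
    · exact absurd rfl hne
    · exact c 5
    · exact (c 2).add (c 2)
    · exact c 6
    · exact c 7
    · exact (c 4).add (c 0)
    · exact c 8
    · exact (c 1).add (c 0)
    · exact (c 4).add (c 3)
    · exact (c 1).add (c 2)
    · exact (c 1).add (c 3)
    · exact (c 5).add (c 4)
  obtain ⟨n, r, hr, hrr⟩ : ∃ (n : ℕ) (r : ℤ), (2 ≤ r ∧ r ≤ 5) ∧ D.1 = r + 4 * n :=
    ⟨((D.1 - 2) / 4).toNat, (D.1 - 2) % 4 + 2, by omega, by omega⟩
  obtain ⟨m, s, hs, hss⟩ : ∃ (m : ℕ) (s : ℤ), (2 ≤ s ∧ s ≤ 4) ∧ D.2 = s + 3 * m :=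
    ⟨((D.2 - 2) / 3).toNat, (D.2 - 2) % 3 + 2, by omega, by omega⟩
  by_cases hK : (r, s) = canon
  · obtain ⟨rfl, rfl⟩ : r = 2 ∧ s = 2 := by
      simpa [canon] using hK
    rcases Nat.eq_zero_or_pos n with hn | hn
    · rcases Nat.eq_zero_or_pos m with hm | hm
      · exfalso
        apply h
        subst hn hm
        ext
        · rw [hrr]; rfl
        · rw [hss]; rfl
      · exact Eff.mk 2 5 ((Eff.curve 2).add (Eff.curve 3)) n (m - 1) hrr (by omega)
    · exact Eff.mk 6 2 ((Eff.curve 4).add (Eff.curve 4)) (n - 1) m (by omega) hss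
  · exact Eff.mk r s (hb r s hr hs hK) n m hrr hss

/-! ### The virtual characters -/

/-- the number of the weights of the cohomology of `O(-r)` on `ℙ¹` -/
def len (r : ℤ) : ℕ := (r - 1).natAbs

/-- the sign: `O(-r)` has sections for `r ≤ 0` and first cohomology for `r ≥ 2` -/
def sgn (r : ℤ) : ℤ := if r ≤ 1 then 1 else -1

/-- the weights -/
def wt (r : ℤ) (k : ℕ) : ℤ := if r ≤ 1 then -k else k + 1

theorem sgn_len (r : ℤ) : sgn r * len r = 1 - r := by
  unfold sgn len
  split_ifs <;> omega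

/-- the number of the weights `j` of the product -/
def cnt (D : ℤ × ℤ) (j : ZMod 7) : ℕ :=
  ((range (len D.1) ×ˢ range (len D.2)).filter fun q : ℕ × ℕ =>
    ((wt D.1 q.1 + 2 * wt D.2 q.2 : ℤ) : ZMod 7) = j).card

/-- the multiplicity of the weight `j` in the virtual character -/
def chi (D : ℤ × ℤ) (j : ZMod 7) : ℤ := sgn D.1 * sgn D.2 * cnt D j

theorem sum_chi (D : ℤ × ℤ) : ∑ j, chi D j = (D.1 - 1) * (D.2 - 1) := by
  unfold chi cnt
  rw [← mul_sum, ← Nat.cast_sum, ← card_eq_sum_card_fiberwise fun _ _ => mem_univ _, card_product,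
    card_range, card_range]
  push_cast
  linear_combination sgn D.2 * len D.2 * sgn_len D.1 + (1 - D.1) * sgn_len D.2

theorem chi_le (D : ℤ × ℤ) (j : ZMod 7) : chi D j ≤ ((D.1 - 1) * (D.2 - 1)).natAbs := by
  have h1 : cnt D j ≤ ((D.1 - 1) * (D.2 - 1)).natAbs := by
    refine (card_filter_le _ _).trans ?_
    rw [card_product, card_range, card_range, Int.natAbs_mul]
    rfl
  have h2 : sgn D.1 * sgn D.2 = 1 ∨ sgn D.1 * sgn D.2 = -1 := by
    unfold sgn
    split_ifs <;> simp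
  unfold chi
  rcases h2 with h2 | h2 <;> rw [h2] <;> omega

theorem chi_pos {D : ℤ × ℤ} {j : ZMod 7} (h : 0 < chi D j) :
    (2 ≤ D.1 ∧ 2 ≤ D.2) ∨ (D.1 ≤ 0 ∧ D.2 ≤ 0) := by
  have h1 : cnt D j ≠ 0 := by
    intro h0
    unfold chi at h
    rw [h0] at h
    simp at h
  have h2 : len D.1 * len D.2 ≠ 0 := by
    intro h0
    apply h1
    have : cnt D j ≤ len D.1 * len D.2 := by
      refine (card_filter_le _ _).trans ?_
      rw [card_product, card_range, card_range]
    omega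
  have h3 : len D.1 ≠ 0 := left_ne_zero_of_mul h2
  have h4 : len D.2 ≠ 0 := right_ne_zero_of_mul h2
  unfold len at h3 h4
  unfold chi sgn at h
  split_ifs at h <;> omega

theorem chi_zero : chi 0 = fun j => if j = 0 then 1 else 0 := by
  funext j
  revert j
  decide

theorem chi_canon : chi canon = fun j => if j = 3 then 1 else 0 := by
  funext j
  revert j
  decide

/-! ### The evaluation of the characters -/

section Eval

variable {z : ℂ}

theorem pow_cast (h7 : z ^ 7 = 1) (n : ℤ) : z ^ (n : ZMod 7).val = z ^ n := by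
  have hz : z ≠ 0 := by
    rintro rfl
    simp at h7
  have h1 : (((n : ZMod 7).val : ℕ) : ℤ) = n % 7 := by
    rw [ZMod.val_intCast]
    rfl
  rw [← zpow_natCast, h1]
  conv_rhs => rw [← Int.emod_add_mul_ediv n 7, zpow_add₀ hz, zpow_mul]
  have h2 : z ^ (7 : ℤ) = 1 := by exact_mod_cast h7
  rw [h2, one_zpow, mul_one]

theorem sum_wt {w : ℂ} (hw : w ≠ 0) (h1 : w ≠ 1) (r : ℤ) :
    (sgn r : ℂ) * ∑ k ∈ range (len r), w ^ wt r k = (w ^ r - w) / (1 - w) := by
  have h2 : 1 - w ≠ 0 := sub_ne_zero.mpr h1.symm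
  unfold sgn wt
  split_ifs with h
  · obtain ⟨n, hn⟩ : ∃ n : ℕ, r = 1 - n := ⟨(1 - r).toNat, by omega⟩
    have hl : len r = n := by unfold len; omega
    have h3 : w⁻¹ ≠ 1 := by
      intro h
      exact h1 (by rw [← inv_inv w, h, inv_one])
    have h4 : ∀ k ∈ range n, w ^ (-(k : ℤ)) = w⁻¹ ^ k := by
      intro k _
      rw [zpow_neg, zpow_natCast, inv_pow]
    rw [hl, sum_congr rfl h4, geom_sum_eq h3, hn, zpow_sub₀ hw, zpow_one, zpow_natCast]
    have h5 : w⁻¹ - 1 ≠ 0 := sub_ne_zero.mpr h3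
    have h6 : w ^ n ≠ 0 := pow_ne_zero _ hw
    push_cast
    rw [one_mul, div_eq_div_iff h5 h2, inv_pow]
    field_simp
  · obtain ⟨n, hn⟩ : ∃ n : ℕ, r = 1 + n := ⟨(r - 1).toNat, by omega⟩
    have hl : len r = n := by unfold len; omega
    have h4 : ∀ k ∈ range n, w ^ ((k : ℤ) + 1) = w ^ k * w := by
      intro k _
      rw [zpow_add₀ hw, zpow_one, zpow_natCast]
    rw [hl, sum_congr rfl h4, ← sum_mul, geom_sum_eq h1, hn, zpow_add₀ hw, zpow_one, zpow_natCast]
    have h5 : w - 1 ≠ 0 := sub_ne_zero.mpr h1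
    push_cast
    rw [div_mul_eq_mul_div, mul_div_assoc', div_eq_div_iff h5 h2]
    ring

theorem sum_chi_mul (h7 : z ^ 7 = 1) (h1 : z ≠ 1) (h2 : z ^ 2 ≠ 1) (D : ℤ × ℤ) :
    ∑ j, (chi D j : ℂ) * z ^ j.val =
      (z ^ D.1 - z) / (1 - z) * ((z ^ (2 * D.2) - z ^ 2) / (1 - z ^ 2)) := by
  have hz : z ≠ 0 := by
    rintro rfl
    simp at h7
  have hz2 : z ^ 2 ≠ 0 := pow_ne_zero _ hz
  have e : z ^ (2 * D.2) = (z ^ 2) ^ D.2 := by
    rw [zpow_mul]
    norm_cast
  rw [e, ← sum_wt hz h1, ← sum_wt hz2 h2]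
  have h3 : ∑ j, (cnt D j : ℂ) * z ^ j.val =
      (∑ k ∈ range (len D.1), z ^ wt D.1 k) * ∑ k ∈ range (len D.2), (z ^ 2) ^ wt D.2 k := by
    rw [sum_mul_sum, ← sum_product', ← sum_fiberwise_of_maps_to
      (g := fun q : ℕ × ℕ => ((wt D.1 q.1 + 2 * wt D.2 q.2 : ℤ) : ZMod 7))
      (t := univ) fun _ _ => mem_univ _]
    refine sum_congr rfl fun j _ => ?_
    unfold cnt
    rw [← nsmul_eq_mul, ← sum_const]
    refine sum_congr rfl fun q hq => ?_
    obtain ⟨-, hq⟩ := mem_filter.mp hq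
    rw [← hq, pow_cast h7, zpow_add₀ hz, zpow_mul]
    norm_cast
  unfold chi
  push_cast
  calc _ = (sgn D.1 : ℂ) * sgn D.2 * ∑ j, (cnt D j : ℂ) * z ^ j.val := by
        rw [mul_sum]
        exact sum_congr rfl fun j _ => by ring
    _ = _ := by rw [h3]; ring

end Eval

/-! ### The multiplicities -/

open scoped Classical in
/-- the multiplicities of the weights in `H⁰` -/
noncomputable def m0 (D : ℤ × ℤ) (j : ZMod 7) : ℕ :=
  if D = 0 then (if j = 0 then 1 else 0) else
    if Eff D then ((D.1 - 1) * (D.2 - 1)).natAbs + 1 else 0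

/-- the multiplicities of the weights in `H²` -/
noncomputable def m2 (D : ℤ × ℤ) (j : ZMod 7) : ℕ := m0 (canon - D) (3 - j)

/-- the multiplicities of the weights in `H¹` -/
noncomputable def m1 (D : ℤ × ℤ) (j : ZMod 7) : ℕ := ((m0 D j : ℤ) + m2 D j - chi D j).toNat

theorem m0_zero : m0 0 = fun j => if j = 0 then 1 else 0 := by
  funext j
  unfold m0
  rw [if_pos rfl]

theorem m0_canon (j : ZMod 7) : m0 canon j = 0 := by
  unfold m0
  rw [if_neg (by decide), if_neg not_eff_canon]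

theorem m2_zero (j : ZMod 7) : m2 0 j = 0 := by
  unfold m2
  rw [sub_zero, m0_canon]

theorem m2_canon (j : ZMod 7) : m2 canon j = if j = 3 then 1 else 0 := by
  unfold m2
  rw [sub_self, m0_zero]
  revert j
  decide

theorem chi_le_sum (D : ℤ × ℤ) (j : ZMod 7) : chi D j ≤ (m0 D j : ℤ) + m2 D j := by
  by_cases h0 : D = 0
  · subst h0
    rw [chi_zero, m0_zero, m2_zero]
    simp only
    split_ifs <;> simp
  by_cases hK : D = canon
  · subst hK
    rw [chi_canon, m2_canon, m0_canon]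
    simp only
    split_ifs <;> simp
  have hK' : canon - D ≠ 0 := fun h => hK (sub_eq_zero.mp h).symm
  by_cases hE : Eff D
  · have h1 : m0 D j = ((D.1 - 1) * (D.2 - 1)).natAbs + 1 := by
      unfold m0
      rw [if_neg h0, if_pos hE]
    have := chi_le D j
    omega
  by_cases hE' : Eff (canon - D)
  · have h1 : m2 D j = (((canon - D).1 - 1) * ((canon - D).2 - 1)).natAbs + 1 := by
      unfold m2 m0
      rw [if_neg hK', if_pos hE']
    have h2 : ((canon - D).1 - 1) * ((canon - D).2 - 1) = (D.1 - 1) * (D.2 - 1) := by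
      simp only [canon, Prod.fst_sub, Prod.snd_sub]
      ring
    rw [h2] at h1
    have := chi_le D j
    omega
  · by_contra hneg
    have h3 : 0 < chi D j := by omega
    rcases chi_pos h3 with h | h
    · exact hE (eff_of_ge h.1 h.2 hK)
    · refine hE' (eff_of_ge ?_ ?_ fun h => h0 ?_)
      · simp only [canon, Prod.fst_sub]; omega
      · simp only [canon, Prod.snd_sub]; omega
      · simpa using h

theorem m1_eq (D : ℤ × ℤ) (j : ZMod 7) : (m1 D j : ℤ) = (m0 D j : ℤ) + m2 D j - chi D j := by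
  unfold m1
  rw [Int.toNat_of_nonneg]
  have := chi_le_sum D j
  omega

theorem sum_m2 (D : ℤ × ℤ) : ∑ j, m2 D j = ∑ j, m0 (canon - D) j :=
  (Equiv.subLeft (3 : ZMod 7)).sum_comp (m0 (canon - D))

theorem sum_m0_pos (D : ℤ × ℤ) : 0 < ∑ j, m0 D j ↔ Eff D := by
  by_cases h0 : D = 0
  · subst h0
    rw [m0_zero]
    exact iff_of_true (by simp) Eff.zero
  · by_cases hE : Eff D
    · refine iff_of_true ?_ hE
      refine sum_pos (fun j _ => ?_) ⟨0, mem_univ _⟩
      unfold m0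
      rw [if_neg h0, if_pos hE]
      omega
    · refine iff_of_false ?_ hE
      have : ∑ j, m0 D j = 0 := sum_eq_zero fun j _ => by
        unfold m0
        rw [if_neg h0, if_neg hE]
      omega

/-- the multiplicities of the weights -/
noncomputable def mult (i : Fin 3) : ℤ × ℤ → ZMod 7 → ℕ := ![m0, m1, m2] i

/-- the surface -/
noncomputable def surface : Surface where
  Curve := Fin 9
  cls := cls
  genus := gen
  delta := del
  adjunction := by decide
  nef := by decide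
  ample := ⟨(1, 1), by decide⟩
  miyaoka := by
    intro C n _ _ hn h
    have h1 : ∀ C, 0 ≤ dot (cls C) (cls C) := by decide
    have := h1 C
    omega
  h := fun i D => ∑ j, mult i D j
  riemannRoch := by
    intro D
    have h1 : ((∑ j, m0 D j : ℕ) : ℤ) - (∑ j, m1 D j : ℕ) + (∑ j, m2 D j : ℕ) =
        (D.1 - 1) * (D.2 - 1) := by
      rw [← sum_chi]
      push_cast
      rw [← sum_sub_distrib, ← sum_add_distrib]
      refine sum_congr rfl fun j _ => ?_
      rw [m1_eq]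
      ring
    change 2 * (((∑ j, m0 D j : ℕ) : ℤ) - (∑ j, m1 D j : ℕ) + (∑ j, m2 D j : ℕ)) = _
    rw [h1]
    simp only [dot, canon, Prod.fst_sub, Prod.snd_sub]
    ring
  serre := fun D => sum_m2 D
  geometricGenus := by
    change ∑ j, m0 canon j = 0
    exact sum_eq_zero fun j _ => m0_canon j
  irregularity := by
    change ∑ j, m1 0 j = 0
    refine sum_eq_zero fun j _ => ?_
    unfold m1
    rw [m0_zero, m2_zero, chi_zero]
    simp only
    split_ifs <;> simp
  effective := fun D => sum_m0_pos D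

/-! ### The automorphism -/

def wa : Fin 4 → ZMod 7 := ![6, 6, 1, 1]

def wb : Fin 4 → ZMod 7 := ![5, 2, 5, 2]

def we : Fin 4 → ZMod 7 := ![0, 0, 1, 1]

def wf : Fin 4 → ZMod 7 := ![0, 2, 0, 2]

/-- a branch with parameter of weight `t` and orders `A`, `B` -/
def br (t : ZMod 7) (A B : ℕ) : Branch 7 := ⟨t, A, B⟩

/-- the branches of the curves at the fixed points -/
def brs : Fin 9 → Fin 4 → List (Branch 7) := ![
  ![[], [br 2 3 1, br 6 1 5], [], [br 2 4 1]],
  ![[], [], [br 4 2 3], [br 3 5 3]],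
  ![[br 5 4 1], [br 6 1 5], [br 1 1 5], [br 2 4 1]],
  ![[], [br 2 3 1, br 6 1 5], [br 1 1 5, br 5 3 1], []],
  ![[br 5 4 1], [br 3 2 3], [br 4 2 3], [br 2 4 1]],
  ![[], [br 2 3 1, br 6 1 5], [br 1 1 5], [br 5 3 6]],
  ![[], [br 4 5 4], [br 3 5 4], []],
  ![[br 3 2 4], [br 3 2 3], [], [br 2 4 1]],
  ![[], [br 4 5 4], [br 4 2 3], [br 5 3 6]]]

/-- the weights of the equations -/
def wc : Fin 9 → ZMod 7 := ![0, 0, 6, 0, 6, 0, 0, 3, 0]

theorem brs_ne : ∀ C P, ∀ Q ∈ brs C P, Q.t ≠ 0 := by decide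

theorem brs_order : ∀ C P, ∀ Q ∈ brs C P, 0 < Q.A ∧ 0 < Q.B ∧ (Q.A : ZMod 7) * Q.t = wa P ∧
    (Q.B : ZMod 7) * Q.t = wb P := by decide

theorem inv_eq (t : ZMod 7) : t⁻¹ = t ^ 5 := by
  by_cases h : t = 0
  · subst h
    simp
  · have h1 : ∀ t : ZMod 7, t ≠ 0 → t ^ 5 * t = 1 := by decide
    exact (eq_inv_of_mul_eq_one_left (h1 t h)).symm

theorem brs_equation : ∀ C P, wa P * wb P * ((brs C P).map fun Q => Q.t⁻¹).sum +
    (((cls C).1 : ZMod 7) * we P + ((cls C).2 : ZMod 7) * wf P) = wc C := by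
  have h : ∀ C P, wa P * wb P * ((brs C P).map fun Q => Q.t ^ 5).sum +
      (((cls C).1 : ZMod 7) * we P + ((cls C).2 : ZMod 7) * wf P) = wc C := by decide
  intro C P
  rw [← h C P]
  simp only [inv_eq]

theorem brs_hurwitz : ∀ C, 2 * gen C + 2 * 7 = 2 + 2 * 7 * 0 + (7 - 1) * ∑ P, (brs C P).length := by
  decide

theorem brs_delta : ∀ C, ∑ P, deltaBound (brs C P) ≤ 2 * del C := by decide

/-- the data of the curves -/
def invariant (C : Fin 9) : Invariant wa wb we wf (cls C) (gen C) (del C) where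
  branches := brs C
  weight_ne := brs_ne C
  order := brs_order C
  c := wc C
  equation := brs_equation C
  quotientGenus := 0
  riemannHurwitz := brs_hurwitz C
  delta_ge := brs_delta C

theorem sum_points (D : ℤ × ℤ) : ∑ P, zeta 7 ^ ((D.1 : ZMod 7) * we P + (D.2 : ZMod 7) * wf P).val /
      ((1 - zeta 7 ^ (wa P).val) * (1 - zeta 7 ^ (wb P).val)) =
    ∑ j, (chi D j : ℂ) * zeta 7 ^ j.val := by
  have hp : IsPrimitiveRoot (zeta 7) 7 := Complex.isPrimitiveRoot_exp 7 (by norm_num)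
  have h7 : zeta 7 ^ 7 = 1 := hp.pow_eq_one
  have h1 : zeta 7 ≠ 1 := hp.ne_one (by norm_num)
  have h2 : zeta 7 ^ 2 ≠ 1 := hp.pow_ne_one_of_pos_of_lt (by norm_num) (by norm_num)
  rw [sum_chi_mul h7 h1 h2]
  generalize zeta 7 = z at *
  have hz : z ≠ 0 := by
    rintro rfl
    simp at h7
  have e0 : ((D.1 : ZMod 7) * we 0 + (D.2 : ZMod 7) * wf 0) = ((0 : ℤ) : ZMod 7) := by
    simp [we, wf]
  have e1 : ((D.1 : ZMod 7) * we 1 + (D.2 : ZMod 7) * wf 1) = ((2 * D.2 : ℤ) : ZMod 7) := by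
    simp [we, wf]
    ring
  have e2 : ((D.1 : ZMod 7) * we 2 + (D.2 : ZMod 7) * wf 2) = ((D.1 : ℤ) : ZMod 7) := by
    simp [we, wf]
  have e3 : ((D.1 : ZMod 7) * we 3 + (D.2 : ZMod 7) * wf 3) = ((D.1 + 2 * D.2 : ℤ) : ZMod 7) := by
    simp [we, wf]
    ring
  rw [Fin.sum_univ_four, e0, e1, e2, e3, pow_cast h7, pow_cast h7, pow_cast h7, pow_cast h7,
    zpow_add₀ hz, zpow_zero]
  have a0 : (wa 0).val = 6 := rfl
  have a1 : (wa 1).val = 6 := rfl
  have a2 : (wa 2).val = 1 := rfl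
  have a3 : (wa 3).val = 1 := rfl
  have b0 : (wb 0).val = 5 := rfl
  have b1 : (wb 1).val = 2 := rfl
  have b2 : (wb 2).val = 5 := rfl
  have b3 : (wb 3).val = 2 := rfl
  rw [a0, a1, a2, a3, b0, b1, b2, b3, pow_one]
  generalize z ^ D.1 = R
  generalize z ^ (2 * D.2) = S
  have hA : 1 - z ≠ 0 := sub_ne_zero.mpr h1.symm
  have hB : 1 - z ^ 2 ≠ 0 := sub_ne_zero.mpr h2.symm
  have h6 : z * (1 - z ^ 6) = -(1 - z) := by linear_combination -h7
  have h5 : z ^ 2 * (1 - z ^ 5) = -(1 - z ^ 2) := by linear_combination -h7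
  have hC : 1 - z ^ 6 ≠ 0 := by
    intro h
    rw [h, mul_zero] at h6
    exact hA (by linear_combination h6)
  have hE : 1 - z ^ 5 ≠ 0 := by
    intro h
    rw [h, mul_zero] at h5
    exact hB (by linear_combination h5)
  have i6 : (1 - z ^ 6)⁻¹ = -z * (1 - z)⁻¹ := by
    field_simp
    linear_combination h6
  have i5 : (1 - z ^ 5)⁻¹ = -z ^ 2 * (1 - z ^ 2)⁻¹ := by
    field_simp
    linear_combination h5
  simp only [div_eq_mul_inv, mul_inv, i5, i6]
  ring

/-- the local data -/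
noncomputable def localData : LocalData surface 7 1 (Fin 4) where
  a := wa
  b := wb
  e := we
  f := wf
  a_ne := by decide
  b_ne := by decide
  k := 4
  canonical := by decide
  mult := mult
  sum_mult := fun i D => rfl
  constants := by
    funext j
    change m0 0 j = _
    rw [m0_zero]
    revert j
    decide
  lefschetz := by
    intro D
    refine (sum_points D).trans (sum_congr rfl fun j _ => ?_)
    have h1 := m1_eq D j
    have h2 : (chi D j : ℂ) = ((m0 D j : ℂ) - m1 D j + m2 D j) := by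
      have h3 : chi D j = (m0 D j : ℤ) - m1 D j + m2 D j := by omega
      rw [h3]
      push_cast
      ring
    rw [h2]
    rfl
  eigensection := by
    intro D j h
    have h1 : 0 < ∑ j, m0 D j :=
      lt_of_lt_of_le h (single_le_sum (f := m0 D) (fun _ _ => Nat.zero_le _) (mem_univ j))
    obtain ⟨Z, hZ⟩ := (sum_m0_pos D).mp h1
    exact ⟨Z, hZ, Multiset.map_id Z⟩
  invariant := fun C _ => ⟨invariant C⟩

/-- the automorphism -/
noncomputable def automorphism : Automorphism surface 7 where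
  act := 1
  act_pow := one_pow _
  phi := AddMonoidHom.id _
  phi_pow := rfl
  phi_dot := fun _ _ => rfl
  phi_canon := rfl
  cls_act := fun _ => rfl
  Point := Fin 4
  fintype := inferInstance
  fixed := ∅
  fixed_smooth := by simp
  lefschetz := by simp
  smith := by simp
  localData := fun _ _ => ⟨localData⟩

/-- the model has an instance for `p = 7` -/
theorem seven : ∃ X : Surface, Nonempty (Automorphism X 7) := ⟨surface, ⟨automorphism⟩⟩

end Pool.Agent.H52.FQ.Seven
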